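import Pool.Agent.W_448s8f_h61.TA
import Pool.Agent.W_448cl_h67.ClP
import Pool.Agent.W_448s8_h76.SaN

/-!
Coded strips below a longer trunk (MP_448cb3_co, S8, finite part).
-/

namespace Pool.Agent.GaussPoset

set_option linter.unusedSectionVars false

open Polynomial Finset Wd Cl

universe u

variable {P : Type u} [Fintype P] [PartialOrder P] [DecidableEq P]

/-- nested subtypes -/
def subIso {p : P → Prop} {q : {x : P // p x} → Prop} {w : P → Prop}
    (h : ∀ x, w x ↔ ∃ hx : p x, q ⟨x, hx⟩) : {x : {x : P // p x} // q x} ≃o {x : P // w x} where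
  toFun x := ⟨x.1.1, (h _).2 ⟨x.1.2, x.2⟩⟩
  invFun x := ⟨⟨x.1, ((h _).1 x.2).choose⟩, ((h _).1 x.2).choose_spec⟩
  left_inv _ := rfl
  right_inv _ := rfl
  map_rel_iff' := Iff.rfl

section Conv

variable {p : P → Prop} [DecidablePred p] {s : ℕ}

/-- levels in a convex part -/
lemma lev_conv (hp1 : ∀ x y, x ≤ y → p x → s ≤ lev y → p y) (hp2 : ∀ x, p x → s ≤ lev x)
    (x : {x : P // p x}) : lev x = lev (x : P) - s := by
  have h1 : lev x ≤ lev (x : P) - s :=
    lev_le (f := fun y : {x : P // p x} => lev (y : P) - s) (fun a b hab => by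
      have h2 := lev_strictAnti (show (a : P) < (b : P) from hab)
      have h3 := hp2 _ b.2
      have h4 := hp2 _ a.2
      show lev (b : P) - s < lev (a : P) - s
      omega) x
  have key : ∀ k, ∀ x : {x : P // p x}, lev (x : P) = s + k → k ≤ lev x := by
    intro k
    induction k with
    | zero => intro x _; exact Nat.zero_le _
    | succ k ih =>
      intro x hx
      obtain ⟨y, hxy, hy⟩ := exists_lev_succ (x := (x : P)) (k := s + k) (by omega)
      have hpy := hp1 _ _ hxy.le x.2 (by omega)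
      have h2 := ih ⟨y, hpy⟩ hy
      have h3 := lev_strictAnti (show x < (⟨y, hpy⟩ : {x : P // p x}) from hxy)
      omega
  have h2 := key (lev (x : P) - s) x (by have := hp2 _ x.2; omega)
  omega

/-- covers in a convex part -/
lemma cov_conv (hp1 : ∀ x y, x ≤ y → p x → s ≤ lev y → p y) (hp2 : ∀ x, p x → s ≤ lev x)
    {x y : {x : P // p x}} : x ⋖ y ↔ (x : P) ⋖ (y : P) := by
  constructor
  · intro h
    refine ⟨h.1, fun z h1 h2 => ?_⟩
    have h3 := hp2 _ y.2
    have h4 := lev_strictAnti h2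
    exact h.2 (c := ⟨z, hp1 _ _ h1.le x.2 (by omega)⟩) h1 h2
  · intro h
    exact ⟨h.1, fun z h1 h2 => h.2 (c := (z : P)) h1 h2⟩

end Conv

section Shift

variable {r s N J : ℕ} {t : P} {lo hi : ℕ → ℕ} {e : ℕ → ℕ → P}
variable {los his ll sl cv nn : ℕ → ℕ}

/-- the part of the component on the levels `≥ s` -/
abbrev Lp (s j : ℕ) (t : P) : Type u := {x : P // x ∈ lowPart j t ∧ s ≤ lev x}

open Classical in
/-- the cells of the part -/
noncomputable def cLp (s j : ℕ) (t : P) (e : ℕ → ℕ → P) (ll sl : ℕ → ℕ) (d : Lp s j t)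
    (a : ℕ) : Lp s j t :=
  if h : e (ll a + s) (sl a) ∈ lowPart j t ∧ s ≤ lev (e (ll a + s) (sl a)) then ⟨_, h⟩ else d

lemma lowPart_up (H : Gr P r) {j : ℕ} (hg : ∀ l, l < j → Win.Good P l) (ht : lev t = 0) {x y : P}
    (hxy : x ≤ y) (hx : x ∈ lowPart j t) : y ∈ lowPart j t := by
  rw [mem_lowPart] at hx ⊢
  refine ⟨Cp.up_le H hg ht hx.1 hx.2 hxy, ?_⟩
  rcases eq_or_lt_of_le hxy with h | h
  · rw [← h]; exact hx.2
  · have := lev_strictAnti h
    omega

variable (S : StripOK N J los his ll sl cv nn) (C : Cp.Comp (J + s) t lo hi e)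
  (hlo : ∀ k, k ≤ J → lo (k + s) = los k) (hhi : ∀ k, k ≤ J → hi (k + s) = his k)

include S C hlo hhi

lemma scell_mem {a : ℕ} (ha : a < nn J) : ll a ≤ J ∧ lo (ll a + s) ≤ sl a ∧ sl a ≤ hi (ll a + s) ∧
    e (ll a + s) (sl a) ∈ lowPart (J + s) t ∧ lev (e (ll a + s) (sl a)) = ll a + s := by
  have hN := S.nle J (by omega)
  have h1 : ll a ≤ J := (S.num J (by omega) a (by omega)).mp ha
  have h2 := S.row a (by omega)
  rw [← hlo _ h1, ← hhi _ h1] at h2
  have h3 := C.lev_e (ll a + s) (sl a) (by omega) h2.1 h2.2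
  exact ⟨h1, h2.1, h2.2, mem_lowPart.mpr ⟨C.le_t _ _ (by omega) h2.1 h2.2, by omega⟩, h3⟩

lemma cLp_val (d : Lp s (J + s) t) {a : ℕ} (ha : a < nn J) :
    (cLp s (J + s) t e ll sl d a : P) = e (ll a + s) (sl a) := by
  obtain ⟨-, -, -, h1, h2⟩ := scell_mem S C hlo hhi ha
  unfold cLp
  rw [dif_pos ⟨h1, by omega⟩]

/-- every element of the part is a cell -/
lemma cLp_surj (d x : Lp s (J + s) t) : ∃ a < nn J, cLp s (J + s) t e ll sl d a = x := by
  have hx := mem_lowPart.mp x.2.1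
  have hs := x.2.2
  obtain ⟨σ, h1, h2, h3⟩ := C.surj x hx.1 hx.2
  obtain ⟨k, hk⟩ : ∃ k, lev (x : P) = k + s := ⟨lev (x : P) - s, by omega⟩
  rw [hk] at h1 h2 h3
  have h4 := hlo k (by omega)
  have h5 := hhi k (by omega)
  obtain ⟨a, ha, h6, h7⟩ := S.surj k (by omega) σ (by omega) (by omega)
  have ha' : a < nn J := by
    rw [S.num J (by omega) a ha]
    omega
  refine ⟨a, ha', Subtype.ext ?_⟩
  rw [cLp_val S C hlo hhi d ha', h6, h7, h3]

/-- **the part is coded** -/
theorem cod_shift (H : Gr P r) (hg : ∀ l, l < J + s → Win.Good P l) (ht : lev t = 0)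
    (d : Lp s (J + s) t) : Cod (nn J) cv ll (cLp s (J + s) t e ll sl d) := by
  have hp1 : ∀ x y : P, x ≤ y → (x ∈ lowPart (J + s) t ∧ s ≤ lev x) → s ≤ lev y →
      (y ∈ lowPart (J + s) t ∧ s ≤ lev y) := fun x y hxy hx hy => ⟨lowPart_up H hg ht hxy hx.1, hy⟩
  have hp2 : ∀ x : P, (x ∈ lowPart (J + s) t ∧ s ≤ lev x) → s ≤ lev x := fun x hx => hx.2
  have hN := S.nle J (by omega)
  have hval := fun {a : ℕ} (ha : a < nn J) => cLp_val S C hlo hhi d ha
  refine ⟨?_, ?_, ?_⟩
  · intro a ha b hb h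
    have h1 : (cLp s (J + s) t e ll sl d a : P) = cLp s (J + s) t e ll sl d b := by rw [h]
    rw [hval ha, hval hb] at h1
    obtain ⟨p1, p2, p3, p4, p5⟩ := scell_mem S C hlo hhi ha
    obtain ⟨q1, q2, q3, q4, q5⟩ := scell_mem S C hlo hhi hb
    have h2 : ll a = ll b := by
      have := congrArg lev h1
      omega
    refine S.inj a (by omega) b (by omega) h2 ?_
    rw [h2] at h1 p2 p3
    exact C.inj (ll b + s) _ _ (by omega) p2 p3 q2 q3 h1
  · intro a ha y
    obtain ⟨p1, p2, p3, p4, p5⟩ := scell_mem S C hlo hhi ha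
    rw [cov_conv hp1 hp2, hval ha]
    constructor
    · intro h
      have hys := y.2.2
      have h0 : 1 ≤ ll a := by
        have := lev_strictAnti h.1
        omega
      obtain ⟨k, hk⟩ : ∃ k, ll a = k + 1 := ⟨ll a - 1, by omega⟩
      have hk' : ll a + s = (k + s) + 1 := by omega
      rw [hk'] at h p2 p3
      obtain ⟨s', h4, h5, h6, h7⟩ := C.cov_up H hg ht (by omega) p2 p3 h
      obtain ⟨b, hb, h8, h9⟩ := S.surj k (by omega) s' (by
        have := hhi k (by omega); omega) (by have := hlo k (by omega); omega)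
      have hb' : b < nn J := by
        rw [S.num J (by omega) b hb]
        omega
      refine ⟨b, hb', ?_, Subtype.ext ?_⟩
      · rw [S.cov a (by omega) b hb]
        omega
      · rw [hval hb', h8, h9, h6]
    · rintro ⟨b, hb, h4, rfl⟩
      rw [hval hb]
      obtain ⟨q1, q2, q3, q4, q5⟩ := scell_mem S C hlo hhi hb
      rw [S.cov a (by omega) b (by omega)] at h4
      have hk' : ll a + s = (ll b + s) + 1 := by omega
      rw [hk'] at p2 p3 ⊢
      exact (C.cov (ll b + s) (sl a) (sl b) (by omega) p2 p3 q2 q3).mpr h4.2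
  · intro a ha
    obtain ⟨p1, p2, p3, p4, p5⟩ := scell_mem S C hlo hhi ha
    rw [lev_conv hp1 hp2, hval ha, p5]
    omega

end Shift

/-- the check that the cell `a0` generates the code `bm` -/
def genChk (N a0 bm : ℕ) (cv : ℕ → ℕ) : Bool :=
  (List.range N).all fun a => !(bm.testBit a) || Nat.beq a a0 ||
    (List.range N).any fun b => Nat.blt a b && bm.testBit b && (cv b).testBit a

lemma gen_mem {n a0 bm : ℕ} {cv lv : ℕ → ℕ} {c : ℕ → P} (hC : Cod n cv lv c)
    (hb : genChk n a0 bm cv = true) {U : Finset P} (hup : ∀ x y, x ≤ y → x ∈ U → y ∈ U)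
    (h0 : c a0 ∈ U) : ∀ a < n, bm.testBit a = true → c a ∈ U := by
  unfold genChk at hb
  simp only [Bool.and_eq_true, List.all_eq_true, List.mem_range, Bool.or_eq_true, Cl.beq_iff,
    Nat.blt_eq, List.any_eq_true] at hb
  have key : ∀ d a, a < n → n - a = d → bm.testBit a = true → c a ∈ U := by
    intro d
    induction d using Nat.strong_induction_on with
    | _ d ih =>
      intro a ha hd hba
      rcases hb a ha with (h | h) | ⟨b, hbN, ⟨h7, h8⟩, h9⟩
      · rw [hba] at h; exact absurd h (by simp)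
      · rw [h]; exact h0
      · have h10 := ih (n - b) (by omega) b hbN rfl h8
        exact hup _ _ ((hC.cov b hbN _).mpr ⟨a, ha, h9, rfl⟩).le h10
  exact fun a ha hba => key _ a ha rfl hba

/-- the cell `(14, 7)` generates its code -/
theorem La7_gen : genChk 30 29 554849791 (fun a => La7cv.getD a 0) = true := by decide +kernel

section Word

variable {lo hi : ℕ → ℕ} {a a' : ℕ} {w : List Ltr}

lemma losW_shift (h : a' ≤ a) (k : ℕ) : losW a w (k + (a - a')) = losW a' w k := by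
  unfold losW
  rw [show k + (a - a') - a = k - a' by omega]
  by_cases hk : k < a'
  · rw [if_pos hk, if_pos (by omega)]
  · rw [if_neg hk, if_neg (by omega)]

lemma hisW_shift (h : a' ≤ a) (k : ℕ) : hisW a w (k + (a - a')) = hisW a' w k := by
  unfold hisW
  rw [show k + (a - a') - a = k - a' by omega]
  by_cases hk : k < a'
  · rw [if_pos hk, if_pos (by omega)]
  · rw [if_neg hk, if_neg (by omega)]

end Word

section Seven

variable {r a : ℕ} {t : P} {lo hi : ℕ → ℕ} {e : ℕ → ℕ → P}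

/-- order two at the window 7 of the part with the trunk cut to length 7 -/
theorem La7_part (C : Cp.Comp (a + 7) t lo hi e) (D : WordD (a + 7) a wa7 lo hi) (H : Gr P r)
    (hg : ∀ l, l < a + 7 → Win.Good P l) (ht : lev t = 0) (ha : 7 ≤ a) {L : Finset P}
    (hL : L ⊆ lowPart (a + 7) t) (hup : ∀ x y, x ≤ y → x ∈ L → y ∈ L) (h7 : e (a + 7) 7 ∈ L)
    (n : ℕ) : (1 + X : ℤ[X]) ^ 2 ∣ Z {x : {x : P // x ∈ L} // a - 7 ≤ lev x} 7 n := by
  classical
  obtain ⟨s, hs⟩ : ∃ s, a - 7 = s := ⟨_, rfl⟩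
  have h14 : a + 7 = 14 + s := by omega
  obtain ⟨hr1, hr2⟩ := D.rows C
  have hlo : ∀ k, k ≤ 14 → lo (k + s) = losW 7 wa7 k := by
    intro k hk
    rw [hr1 _ (by omega), ← hs, losW_shift ha]
  have hhi : ∀ k, k ≤ 14 → hi (k + s) = hisW 7 wa7 k := by
    intro k hk
    rw [hr2 _ (by omega), ← hs, hisW_shift ha]
  rw [hs]
  have h7s : s ≤ lev (e (a + 7) 7) := by
    have h1 := mem_lowPart.mp (hL h7)
    have h2 : lev (e (a + 7) 7) = a + 7 := by
      refine C.lev_e _ _ le_rfl ?_ ?_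
      · rw [h14, hlo 14 le_rfl]; decide
      · rw [h14, hhi 14 le_rfl]; decide
    omega
  rw [h14] at C hg hL h7 h7s
  have S := La7_strip
  let d : Lp s (14 + s) t := ⟨e (14 + s) 7, hL h7, h7s⟩
  have hC := cod_shift S C hlo hhi H hg ht d
  let I : Finset (Lp s (14 + s) t) := univ.filter (fun x => (x : P) ∈ L)
  have hI : ∀ x : Lp s (14 + s) t, x ∈ I ↔ (x : P) ∈ L := fun x => by simp [I]
  have hIup : ∀ x y : Lp s (14 + s) t, x ≤ y → x ∈ I → y ∈ I := by
    intro x y hxy hx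
    rw [hI] at hx ⊢
    exact hup _ _ hxy hx
  have h0 : cLp s (14 + s) t e (fun a => La7lv.getD a 0) (fun a => La7sl.getD a 0) d 29 ∈ I := by
    rw [hI, cLp_val S C hlo hhi d (by decide)]
    exact h7
  have h1 := hC.clean_of La7_us le_rfl La7_win7 (I := I)
    (fun x _ => cLp_surj S C hlo hhi d x) (fun x hx y hxy => hIup x y hxy hx) (by decide)
    (gen_mem hC La7_gen hIup h0)
  have φ : {x : {x : P // x ∈ L} // s ≤ lev x} ≃o {x : Lp s (14 + s) t // x ∈ I} :=
    (subIso (w := fun x : P => x ∈ L ∧ s ≤ lev x) (fun x => by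
      constructor
      · rintro ⟨h2, h3⟩
        refine ⟨h2, ?_⟩
        rw [lev_subtype (p := fun x => x ∈ L) (fun x y hxy hx => hup x y hxy hx)]
        exact h3
      · rintro ⟨h2, h3⟩
        rw [lev_subtype (p := fun x => x ∈ L) (fun x y hxy hx => hup x y hxy hx)] at h3
        exact ⟨h2, h3⟩)).trans
    (subIso (w := fun x : P => x ∈ L ∧ s ≤ lev x) (fun x => by
      constructor
      · rintro ⟨h2, h3⟩
        exact ⟨⟨hL h2, h3⟩, (hI _).mpr h2⟩
      · rintro ⟨h2, h3⟩
        exact ⟨(hI _).mp h3, h2.2⟩)).symm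
  rw [Z_iso φ]
  exact dvd_Z_of_dvd_W h1 n

end Seven

end Pool.Agent.GaussPoset
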