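import Pool.Agent.W_448s8f_h61.TJ
import Pool.Agent.W_448s8_h61.DD

/-!
The types of the strips for the finite part of S8 and the context `WC` (MP_448cb3_co).
-/

namespace Pool.Agent.GaussPoset

set_option linter.unusedSectionVars false

open Polynomial Finset Wd Cl

/-- the profile of the bottom of the complete `E7` -/
def pE7 : List ℕ := [0, 0, 0, 0, 1, 1, 1, 1, 2, 1, 1, 1, 1]

lemma E7_up : ∀ d < 17, (upI (losW 4 w7) (hisW 4 w7) 16 5 d).2 + 1 -
    (upI (losW 4 w7) (hisW 4 w7) 16 5 d).1 = 1 + Fi.gD pE7 d := by decide +kernel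

lemma E7_last : losW 4 w7 16 = 5 ∧ hisW 4 w7 16 = 5 := by decide +kernel

lemma E7_eight : losW 4 w7 8 = 2 ∧ hisW 4 w7 8 = 4 := by decide +kernel

/-- the three cases -/
def CF (i m : ℕ) : Prop := (i = 8 ∧ m = 8) ∨ (i = 9 ∧ m = 9) ∨ (i = 8 ∧ m = 9)

lemma PLl_PL {i m : ℕ} (hc : CF i m) : ∀ p ∈ PLl, p ∈ Fi.PL i m := by
  rcases hc with ⟨rfl, rfl⟩ | ⟨rfl, rfl⟩ | ⟨rfl, rfl⟩ <;> decide

lemma rep_PL {i m d : ℕ} (h1 : 1 ≤ d) (h2 : d < 2 * m - i) :
    List.replicate d 0 ++ [1] ∈ Fi.PL i m := by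
  unfold Fi.PL
  refine List.mem_append_right _ (List.mem_map.mpr ⟨d, ?_, rfl⟩)
  rw [List.mem_range'_1]
  omega

lemma nil_PL {i m : ℕ} : [] ∈ Fi.PL i m := by
  unfold Fi.PL
  refine List.mem_append_left _ ?_
  exact List.mem_cons_self

universe u

variable {P : Type u} [Fintype P] [PartialOrder P] [DecidableEq P] {r i m a : ℕ}
variable {t : Tops P} {lo hi : ℕ → ℕ} {e : ℕ → ℕ → P}

lemma low_up (h : Win.GoodTo P r (2 * m)) : ∀ x y : P, x ≤ y → x ∈ lowPart (2 * m) (t : P) →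
    y ∈ lowPart (2 * m) (t : P) :=
  fun _ _ hxy hx => lowPart_up h.H h.good t.2 hxy hx

/-- the profile of the bottom of a quadric -/
lemma quad_prof (h : QInf m a t) {v : P} (hv : v ≤ (t : P)) (hvl : lev v = 2 * m)
    (hup : ∀ x y : P, x ≤ y → x ∈ lowPart (2 * m) (t : P) → y ∈ lowPart (2 * m) (t : P))
    (ha : a ≤ 2 * m) : Fi.Prof m v (Fi.gD (List.replicate (2 * m - a) 0 ++ [1])) := by
  classical
  intro d hd
  have hvL : v ∈ lowPart (2 * m) (t : P) := mem_lowPart.mpr ⟨hv, hvl.le⟩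
  have h1 : nab (2 * m - d) v = cn (2 * m - d) (t : P) := by
    unfold nab cn
    congr 1
    ext x
    rw [mem_filter, mem_filter, mem_lv]
    constructor
    · rintro ⟨h2, h3⟩
      exact ⟨h2, (mem_lowPart.mp (hup _ _ h3 hvL)).1⟩
    · rintro ⟨h2, h3⟩
      exact ⟨h2, h.bot v hv hvl x h3 (by omega)⟩
  rw [h1, h.cn _ (by omega), gD_rep]
  split_ifs <;> omega

/-- straight strips -/
theorem tc_str (h : Win.GoodTo P r (2 * m)) (him : i ≤ m) (C : Cp.Comp (2 * m) (t : P) lo hi e)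
    (hL : ∀ k, k ≤ 2 * m → lo k = 0 ∧ hi k = 0) (hm : 1 ≤ m) :
    ∃ N θ, Fi.Tc i m t (hi i - lo i + 1) N θ := by
  classical
  have hcn : ∀ l, l ≤ 2 * m → cn l (t : P) = 1 := by
    intro l hl
    rw [cn_comp C (by omega)]
    have := hL l hl
    omega
  have e1 := hL i (by omega)
  refine ⟨_, _, Fi.Tc.light rfl rfl (by omega) (only_low h) ⟨e i (lo i), C.le_t i (lo i)
    (by omega) le_rfl (C.lo_le i (by omega)), C.lev_e i (lo i) (by omega) le_rfl
    (C.lo_le i (by omega))⟩ ?_ (hcn 2 (by omega)).le⟩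
  intro v hv hvl _
  refine ⟨[], nil_PL, ?_, ?_⟩
  · intro d hd
    have h1 := nab_le_cn' (t := t) h hv hvl.le (2 * m - d)
    rw [hcn _ (by omega)] at h1
    have h2 := one_le_nab (z := v) (l := 2 * m - d) (by omega)
    rw [gD_large (Nat.zero_le _)]
    omega
  · intro h7
    rw [gD_large (Nat.zero_le _)] at h7
    omega

/-- late strips, light at window `i` -/
theorem tc_late (h : Win.GoodTo P r (2 * m)) (him : i ≤ m) (hc : CF i m)
    (C : Cp.Comp (2 * m) (t : P) lo hi e) (D : LateD (2 * m) a lo hi) (hia : i < a) :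
    ∃ N θ, Fi.Tc i m t (hi i - lo i + 1) N θ := by
  classical
  have h0 := D.h0
  have h1 := D.h1
  have hm8 : 8 ≤ m ∧ 8 ≤ i := by
    rcases hc with h2 | h2 | h2 <;> omega
  have e1 := D.h2 i hia
  have hcn : cn 2 (t : P) ≤ 1 := by
    rw [cn_comp C (by omega)]
    have := D.h2 2 (by omega)
    omega
  refine ⟨_, _, Fi.Tc.light rfl rfl (by omega) (only_low h) ⟨e i (lo i), C.le_t i (lo i)
    (by omega) le_rfl (C.lo_le i (by omega)), C.lev_e i (lo i) (by omega) le_rfl
    (C.lo_le i (by omega))⟩ ?_ hcn⟩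
  rcases D.h4 with ⟨h2, h3⟩ | h2
  · have hq := D.quad C h3
    have Q : QRows (2 * m) a lo hi := ⟨D.h2, D.h3, by
      intro k hk hk2
      have := hq (k - a) (by omega) (by omega)
      rwa [show a + (k - a) = k by omega] at this⟩
    have hQ : QInf m a t := Q.inf C (by omega)
    intro v hv hvl _
    refine ⟨_, rep_PL (d := 2 * m - a) (by omega) (by omega),
      quad_prof hQ hv hvl (low_up h) h1, ?_⟩
    intro h7
    rw [gD_rep] at h7
    have h8 : 2 * m - a = 7 := by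
      by_contra hcon
      rw [if_neg (fun h' => hcon h'.symm)] at h7
      omega
    left
    have h9 : a = 2 * m - 7 := by omega
    subst h9
    refine ⟨?_, hQ.TD hm8.1 hv hvl (low_up h)⟩
    rw [h8]
    rfl
  · rw [lateW_large (by omega)] at h2
    intro v hv hvl hvu
    obtain ⟨s, s1, s2, hs⟩ := C.surj v hv hvl.le
    rw [hvl] at s1 s2 hs
    subst hs
    obtain ⟨p, hp, hpr, h7⟩ := prof_late C h.H h.good D h2 s1 s2 hvu
    refine ⟨p, PLl_PL hc p hp, hpr, fun h8 => ?_⟩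
    obtain ⟨hw, hsp⟩ := h7 h8
    have hlen : 2 * m - a = 7 := by
      have := congrArg List.length hw
      rw [word_length] at this
      exact this
    have h9 : 2 * m = a + 7 := by omega
    have A : S7 r a (t : P) lo hi e := by
      refine ⟨h9 ▸ C, ⟨D.h2, D.h3, ?_⟩, h.H, h9 ▸ h.good, t.2⟩
      rw [Nat.add_sub_cancel_left]
      rw [hlen] at hw
      rw [hw]
      rfl
    rcases hsp with ⟨rfl, rfl⟩ | ⟨rfl, rfl⟩
    · left
      refine ⟨rfl, ?_⟩
      have := A.TD8 h9 (by omega)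
      rwa [← h9] at this
    · right
      refine ⟨rfl, ?_⟩
      have := A.TD4 h9 (by omega)
      rwa [← h9] at this

/-- rectangle-like strips -/
theorem tc_rect (h : Win.GoodTo P r (2 * m)) (him : i ≤ m) (hi1 : 1 ≤ i)
    (C : Cp.Comp (2 * m) (t : P) lo hi e) (h1 : lo 1 = 0 ∧ hi 1 = 1)
    (S : RectShape (2 * m) lo hi) : ∃ N θ, Fi.Tc i m t (hi i - lo i + 1) N θ := by
  have H := h.H
  have hg := h.good
  have hlt : lo i < hi i := by
    have g1 := C.lo_mono (l := 1) (d := i - 1) (by omega)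
    have g2 := C.hi_mono (l := 1) (d := i - 1) (by omega)
    rw [show 1 + (i - 1) = i by omega] at g1 g2
    by_contra hcon
    have g3 := C.lo_le i (by omega)
    have g4 := shape_lo C S.lo (l := i) (by omega) i (by omega)
    have g5 := shape_hi C S.hi (l := i) (by omega) i (by omega)
    have g6 := C.lo_le (i + i) (by omega)
    omega
  obtain ⟨Nc, co, h2, -⟩ := exists_rect C H hg H.gradedBelow S (i := i) (by omega) hlt
  refine ⟨_, _, Fi.Tc.rect Nc co h2 rfl rfl ?_⟩
  intro x z hxt hxl hx2 hzx honly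
  obtain ⟨j, hj⟩ : ∃ j, 2 * m = j + 1 := ⟨2 * m - 1, by omega⟩
  exact rectShape_no_pendant (i := j) (hj ▸ h) (by omega) t.2 (hj ▸ C) (hj ▸ S)
    (hxl.trans hj) hxt hx2 hzx honly

/-- stair-like strips -/
theorem tc_stair (h : Win.GoodTo P r (2 * m)) (him : i ≤ m) (hm : 2 ≤ m)
    (C : Cp.Comp (2 * m) (t : P) lo hi e) (S : StairShape (2 * m) lo hi) :
    ∃ N θ, Fi.Tc i m t (hi i - lo i + 1) N θ := by
  have H := h.H
  have hg := h.good
  obtain ⟨Nc, co, h1, -⟩ := exists_stair C H hg H.gradedBelow S (i := i) (by omega)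
  have hnop : NopT m t := by
    intro x z hxt hxl hx2 hzx honly
    obtain ⟨j, hj⟩ : ∃ j, 2 * m = j + 1 := ⟨2 * m - 1, by omega⟩
    have h2 := stairShape_pendant (i := j) (hj ▸ h) (by omega) t.2 (hj ▸ C) (hj ▸ S)
      (hxl.trans hj) hxt hx2 hzx honly
    have h3 := cell_lev C (x := x) hxt (by omega)
    omega
  have e0 : lo i = 0 := by
    by_contra hcon
    have e1 := shape_lo C S.lo (l := i) (by omega) i (by omega)
    have e2 := S.hi (i + i) (by omega)
    have e3 := C.lo_le (i + i) (by omega)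
    omega
  have e1 := S.hi i (by omega)
  exact ⟨_, _, Fi.Tc.stair Nc co h1 rfl rfl (by omega) hnop⟩

/-- the heavy quadric -/
theorem tc_quad (h : Win.GoodTo P r (2 * m)) (hm : 8 ≤ m)
    (C : Cp.Comp (2 * m) (t : P) lo hi e) (D : LateD (2 * m) m lo hi) :
    ∃ N θ, Fi.Tc m m t (hi m - lo m + 1) N θ := by
  have h0 := D.h0
  have h1 := D.h1
  rcases D.h4 with ⟨h2, h3⟩ | h2
  · have hq := D.quad C h3
    have Q : QRows (2 * m) m lo hi := ⟨D.h2, D.h3, by
      intro k hk hk2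
      have := hq (k - m) (by omega) (by omega)
      rwa [show m + (k - m) = k by omega] at this⟩
    have hQ : QInf m m t := Q.inf C (by omega)
    have hup := low_up (t := t) h
    have e1 := D.h3
    have hpr : ∀ v, v ≤ (t : P) → lev v = 2 * m →
        Fi.Prof m v (Fi.gD (List.replicate m 0 ++ [1])) := by
      intro v hv hvl
      have := quad_prof hQ hv hvl hup h1
      rwa [show 2 * m - m = m by omega] at this
    have hN := natTop_quad (by omega) (dvd_W_Qd m) hQ (fun x hx y hxy => hup x y hxy hx)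
    rw [show hi m - lo m + 1 = 2 by omega]
    refine ⟨_, _, Fi.Tc.heavy rfl (fun x _ => rfl) ⟨_, hN⟩ ?_ ?_ ?_⟩
    · intro v w hv hw hvl hwl
      exact le_antisymm (hQ.bot v hv hvl w hw hwl.le) (hQ.bot w hw hwl v hv hvl.le)
    · intro v hv hvl
      refine ⟨?_, _, ?_, hpr v hv hvl⟩
      · rw [uc_card_nab h.H (by omega), hvl]
        have := hpr v hv hvl 1 (by omega)
        rw [gD_rep, if_neg (by omega)] at this
        exact this
      · unfold Fi.HL
        rw [if_pos rfl]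
        exact List.mem_cons_self
    · rw [hQ.cn 2 (by omega), if_neg (by omega)]
  · exfalso
    have h3 := late_len_all h2
    rw [word_length] at h3
    omega

/-- the complete `E7` -/
theorem tc_E7 (h : Win.GoodTo P r 16) (C : Cp.Comp 16 (t : P) lo hi e)
    (D : LateD 16 4 lo hi) : ∃ N θ, Fi.Tc 8 8 t (hi 8 - lo 8 + 1) N θ := by
  obtain ⟨W, -⟩ := wordD_four D (by omega) (by omega)
  obtain ⟨r1, r2⟩ := W.rows C
  have H := h.H
  have hg := h.good
  have l1 := r1 16 le_rfl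
  have l2 := r2 16 le_rfl
  rw [E7_last.1] at l1
  rw [E7_last.2] at l2
  have l3 := r1 8 (by omega)
  have l4 := r2 8 (by omega)
  rw [E7_eight.1] at l3
  rw [E7_eight.2] at l4
  have hv : ∀ v : P, v ≤ (t : P) → lev v = 16 → v = e 16 5 := by
    intro v hv hvl
    obtain ⟨s, s1, s2, hs⟩ := C.surj v hv hvl.le
    rw [hvl] at s1 s2 hs
    rw [← hs, show s = 5 by omega]
  have hpr : Fi.Prof 8 (e 16 5) (Fi.gD pE7) := by
    intro d hd
    have h1 := nab_upI C H hg t.2 (s := 5) (by omega) (by omega) (m := d) hd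
    have h2 : upI lo hi 16 5 d = upI (losW 4 w7) (hisW 4 w7) 16 5 d := by
      have := upI_congr (L := losW 4 w7) (H := hisW 4 w7) (lo := lo) (hi := hi) (B := 0)
        (N := 16) (s := 5) (fun n hn => by rw [Nat.zero_add]; exact (r1 n hn).symm)
        (fun n hn => by rw [Nat.zero_add]; exact (r2 n hn).symm) d hd
      rw [this]
    rw [h2] at h1
    exact h1.trans (E7_up d (by omega))
  have hN := natTop_E7_8 W C H hg H.gradedBelow
  rw [show hi 8 - lo 8 + 1 = 3 by omega]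
  refine ⟨_, _, Fi.Tc.heavy rfl (θ := fun x => lev x - 16) ?_ ⟨_, hN⟩ ?_ ?_ ?_⟩
  · intro x hx
    show lev x - 16 = 0
    omega
  · intro v w hv1 hw1 hvl hwl
    rw [hv v hv1 hvl, hv w hw1 hwl]
  · intro v hv1 hvl
    rw [hv v hv1 hvl]
    refine ⟨?_, pE7, ?_, hpr⟩
    · have l5 : lev (e 16 5) = 16 := C.lev_e 16 5 le_rfl (by omega) (by omega)
      rw [uc_card_nab H (by omega), l5]
      exact hpr 1 (by omega)
    · decide
  · rw [cn_comp C (by omega)]
    have := D.h2 2 (by omega)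
    omega

/-- the type of a strip -/
theorem tc_shape (hc : CF i m) (h : Win.GoodTo P r (2 * m))
    (C : Cp.Comp (2 * m) (t : P) lo hi e) (hS : Wd.Shape (2 * m) lo hi) :
    ∃ N θ, Fi.Tc i m t (hi i - lo i + 1) N θ := by
  have him : i ≤ m ∧ m ≤ i + 1 ∧ 8 ≤ i ∧ m ≤ 9 := by
    rcases hc with h2 | h2 | h2 <;> omega
  rcases hS with h1 | ⟨h1, h2⟩ | ⟨h1, h2⟩ | ⟨h1, h2, h3⟩ | ⟨h1, h2⟩ | ⟨a, h0, h1, h2, h3, hN, h4⟩
  · exact tc_str h him.1 C h1 (by omega)
  · exact tc_rect h him.1 (by omega) C h1 h2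
  · exact tc_stair h him.1 (by omega) C h2
  · omega
  · omega
  · have D : LateD (2 * m) a lo hi := ⟨h0, h1, h2, h3, h4⟩
    rcases Nat.lt_or_ge i a with h5 | h5
    · exact tc_late h him.1 hc C D h5
    · -- the heavy ones
      have h6 : (a = m ∧ i = m) ∨ (a = 4 ∧ m = 8) := by
        rcases h4 with h7 | h7
        · left
          omega
        · right
          have h8 := late_len_all h7
          rw [word_length] at h8
          omega
      rcases h6 with ⟨rfl, rfl⟩ | ⟨rfl, rfl⟩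
      · exact tc_quad h (by omega) C D
      · have : i = 8 := by omega
        subst this
        exact tc_E7 h C D

/-- the context -/
theorem Fi.exists_WC {K : ℕ} (hc : (i = 8 ∧ m = 8) ∨ (i = 9 ∧ m = 9) ∨ (i = 8 ∧ m = 9))
    (h : Win.GoodTo P r (2 * m)) (hr : 2 * m + 1 ≤ r) {lo hi : Tops P → ℕ → ℕ}
    {e : Tops P → ℕ → ℕ → P} (C : ∀ t : Tops P, Cp.Comp (2 * m) (t : P) (lo t) (hi t) (e t))
    (hS : ∀ t, Wd.Shape (2 * m) (lo t) (hi t)) (kR : KapR i m K) (kS : KapS i m K)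
    (hK : K ≤ (2 * m + 1 - i) ^ 2 + 1) :
    ∃ N θ, WC r i m K N (fun t => hi t i - lo t i + 1) θ := by
  classical
  have hc' : CF i m := hc
  have him : i ≤ m ∧ m ≤ i + 1 ∧ 8 ≤ i := by
    rcases hc with h2 | h2 | h2 <;> omega
  choose N θ hT using fun t => tc_shape hc' h (C t) (hS t)
  refine ⟨N, θ, ⟨h, hr, by omega, him.1, him.2.1, hT, ?_, kR, kS, hK⟩⟩
  rw [card_level h.H h.good C (i := i) (by omega)]

end Pool.Agent.GaussPoset
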