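import Pool.Agent.W_448tw_h76.TwF

/-!
The trunk lemma: small energies at a window below a trunk (MP_448cb3_co, S8, finite part).
-/

namespace Pool.Agent.GaussPoset

set_option linter.unusedSectionVars false

open Polynomial Finset

universe u

variable {Q : Type u} [Fintype Q] [PartialOrder Q] [DecidableEq Q]

/-- levels in the part below the level `s` -/
lemma lev_low {s : ℕ} (x : {x : Q // s ≤ lev x}) : lev x = lev (x : Q) - s := by
  have h1 : lev x ≤ lev (x : Q) - s :=
    lev_le (f := fun y : {x : Q // s ≤ lev x} => lev (y : Q) - s) (fun a b hab => by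
      have h2 := lev_strictAnti (show (a : Q) < (b : Q) from hab)
      have h3 := b.2
      have h4 := a.2
      show lev (b : Q) - s < lev (a : Q) - s
      omega) x
  have key : ∀ k, ∀ x : {x : Q // s ≤ lev x}, lev (x : Q) = s + k → k ≤ lev x := by
    intro k
    induction k with
    | zero => intro x _; exact Nat.zero_le _
    | succ k ih =>
      intro x hx
      obtain ⟨y, hxy, hy⟩ := exists_lev_succ (x := (x : Q)) (k := s + k) (by omega)
      have h2 := ih ⟨y, by omega⟩ hy
      have h3 := lev_strictAnti (show x < (⟨y, by omega⟩ : {x : Q // s ≤ lev x}) from hxy)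
      omega
  have h2 := key (lev (x : Q) - s) x (by have := x.2; omega)
  omega

/-- a chain from `x` down to the level `i - 1` -/
def ChainBelow (i : ℕ) (x : Q) : Prop := ∃ c : ℕ → Q, c (lev x) = x ∧
  ∀ l, lev x ≤ l → l < i → lev (c l) = l ∧ (l + 1 < i → c (l + 1) < c l)

/-- at small energy the trunk is in the filter and has no excess -/
lemma trunk_forced {i s n : ℕ} {e : Q → ℕ} {F : Finset Q} (hV : Vd i e F)
    (hs : ∑ x, e x = n) (hn : n + s ≤ i) {x : Q} (hx : lev x < s) (hc : ChainBelow i x) :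
    x ∈ F ∧ e x = 0 := by
  classical
  obtain ⟨c, h0, h1⟩ := hc
  have hF : x ∈ F := by
    by_contra hxF
    have h2 := hV.2.1 x hxF
    unfold rho at h2
    have h3 : e x ≤ ∑ x, e x := Finset.single_le_sum (fun _ _ => Nat.zero_le _) (mem_univ x)
    omega
  refine ⟨hF, ?_⟩
  by_contra hne
  have key : ∀ d l, lev x ≤ l → l + d = i → 1 ≤ d → 1 ≤ e (c l) →
      d ≤ ∑ k ∈ Finset.Ico l i, e (c k) := by
    intro d
    induction d with
    | zero => intro l _ _ h; omega
    | succ d ih =>
      intro l hl hd _ he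
      rw [Finset.sum_eq_sum_Ico_succ_bot (by omega)]
      rcases Nat.eq_zero_or_pos d with rfl | hd0
      · omega
      · have h4 := h1 l hl (by omega)
        have h5 := h1 (l + 1) (by omega) (by omega)
        have hlt := h4.2 (by omega)
        have he1 : 1 ≤ e (c (l + 1)) := by
          by_cases hin : c (l + 1) ∈ F
          · have h6 := hV.1 _ _ hlt.le hin
            have h7 := hV.2.2.2 _ _ hlt hin h6
            unfold rho at h7
            rw [h4.1, h5.1] at h7
            omega
          · have h6 := hV.2.1 _ hin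
            unfold rho at h6
            rw [h5.1] at h6
            omega
        have := ih (l + 1) (by omega) (by omega) hd0 he1
        omega
  have h2 := key (i - lev x) (lev x) le_rfl (by omega) (by omega) (by rw [h0]; omega)
  have h3 : ∑ k ∈ Finset.Ico (lev x) i, e (c k) ≤ ∑ x, e x := by
    rw [← Finset.sum_image (f := e) (s := Finset.Ico (lev x) i) (g := c) ?_]
    · exact Finset.sum_le_sum_of_subset (Finset.subset_univ _)
    · intro k hk k' hk' h
      rw [Finset.coe_Ico, Set.mem_Ico] at hk hk'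
      rw [← (h1 k hk.1 hk.2).1, ← (h1 k' hk'.1 hk'.2).1, h]
  omega

lemma rho_low {i s : ℕ} (hsi : s ≤ i) (e : Q → ℕ) (x : {x : Q // s ≤ lev x}) :
    rho (i - s) (fun x : {x : Q // s ≤ lev x} => e x) x = rho i e x := by
  unfold rho
  rw [lev_low x]
  have h1 := x.2
  have h2 : i - s - (lev (x : Q) - s) = i - lev (x : Q) := by omega
  rw [h2]

/-- the configurations with a trivial trunk -/
lemma vd_trunk_iff {i s : ℕ} (hsi : s ≤ i) (e : Q → ℕ) (F : Finset Q) :
    (Vd i e F ∧ ∀ x, lev x < s → x ∈ F ∧ e x = 0) ↔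
      Vd (i - s) (fun x : {x : Q // s ≤ lev x} => e x) (F.subtype (fun x => s ≤ lev x)) ∧
        (∀ x : {x : Q // ¬ s ≤ lev x}, x ∈ F.subtype (fun x => ¬ s ≤ lev x) ∧ e x = 0) := by
  classical
  constructor
  · rintro ⟨hV, hT⟩
    refine ⟨⟨?_, ?_, ?_, ?_⟩, ?_⟩
    · intro x y hxy hx
      rw [mem_subtype] at hx ⊢
      exact hV.1 _ _ hxy hx
    · intro x hx
      rw [mem_subtype] at hx
      rw [rho_low hsi e x]
      exact hV.2.1 _ hx
    · intro x y hxy hx hy
      rw [mem_subtype] at hx hy
      rw [rho_low hsi e x, rho_low hsi e y]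
      exact hV.2.2.1 _ _ hxy hx hy
    · intro x y hxy hx hy
      rw [mem_subtype] at hx hy
      rw [rho_low hsi e x, rho_low hsi e y]
      exact hV.2.2.2 _ _ hxy hx hy
    · intro x
      rw [mem_subtype]
      exact hT _ (not_le.mp x.2)
  · rintro ⟨hV, hT⟩
    have hT' : ∀ x, lev x < s → x ∈ F ∧ e x = 0 := by
      intro x hx
      have := hT ⟨x, not_le.mpr hx⟩
      rw [mem_subtype] at this
      exact this
    have hout : ∀ x, x ∉ F → s ≤ lev x := by
      intro x hx
      by_contra hcon
      exact hx (hT' x (not_le.mp hcon)).1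
    refine ⟨⟨?_, ?_, ?_, ?_⟩, hT'⟩
    · intro x y hxy hx
      by_cases hy : s ≤ lev y
      · have hxl : s ≤ lev x := by
          rcases eq_or_lt_of_le hxy with h | h
          · rw [h]; exact hy
          · have := lev_strictAnti h
            omega
        have h1 := hV.1 ⟨x, hxl⟩ ⟨y, hy⟩ hxy (by rw [mem_subtype]; exact hx)
        rw [mem_subtype] at h1
        exact h1
      · exact (hT' y (not_le.mp hy)).1
    · intro x hx
      have hxl := hout x hx
      have h1 := hV.2.1 ⟨x, hxl⟩ (by rw [mem_subtype]; exact hx)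
      rw [rho_low hsi e ⟨x, hxl⟩] at h1
      exact h1
    · intro x y hxy hx hy
      have hxl := hout x hx
      have hyl := hout y hy
      have h1 := hV.2.2.1 ⟨x, hxl⟩ ⟨y, hyl⟩ hxy (by rw [mem_subtype]; exact hx)
        (by rw [mem_subtype]; exact hy)
      rw [rho_low hsi e ⟨x, hxl⟩, rho_low hsi e ⟨y, hyl⟩] at h1
      exact h1
    · intro x y hxy hx hy
      have hl := lev_strictAnti hxy
      by_cases hyl : s ≤ lev y
      · have hxl : s ≤ lev x := by omega
        have h1 := hV.2.2.2 ⟨x, hxl⟩ ⟨y, hyl⟩ hxy (by rw [mem_subtype]; exact hx)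
          (by rw [mem_subtype]; exact hy)
        rw [rho_low hsi e ⟨x, hxl⟩, rho_low hsi e ⟨y, hyl⟩] at h1
        exact h1
      · have h1 := (hT' y (not_le.mp hyl)).2
        unfold rho
        rw [h1]
        omega

lemma Z_eq_SC_vd (i n : ℕ) :
    Z Q i n = SC (fun (e : Q → ℕ) (F : Finset Q) => Vd i e F) n := by
  rw [Z_eq_ZB, ZB_eq_SC]
  refine SC_congr (fun e F => ?_) n
  rw [cst_empty_iff]
  exact ⟨fun h => h.1, fun h => ⟨h, fun x hx => by simpa using h.2.1 x hx⟩⟩

lemma SC_congr_n {α : Type u} [Fintype α] [DecidableEq α] {T T' : (α → ℕ) → Finset α → Prop}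
    {n : ℕ} (h : ∀ e F, ∑ x, e x = n → (T e F ↔ T' e F)) : SC T n = SC T' n := by
  classical
  unfold SC
  refine Finset.sum_congr rfl fun F _ => Finset.sum_congr (Finset.filter_congr fun e he => ?_)
    (fun _ _ => rfl)
  rw [mem_piAntidiag] at he
  exact h e F he.1

/-- the configurations of the trivial trunk -/
lemma SC_full {α : Type u} [Fintype α] [DecidableEq α] (n : ℕ) :
    SC (fun (e : α → ℕ) (F : Finset α) => ∀ x, x ∈ F ∧ e x = 0) n =
      if n = 0 then (X : ℤ[X]) ^ Fintype.card α else 0 := by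
  classical
  split_ifs with h
  · subst h
    rw [SC_eq_cfg, Finset.sum_eq_single (univ, fun _ => 0)]
    · rw [card_univ]
    · rintro ⟨F, e⟩ hx hne
      exfalso
      rw [mem_cfg] at hx
      refine hne ?_
      rw [Prod.mk.injEq]
      exact ⟨Finset.eq_univ_of_forall fun x => (hx.2 x).1, funext fun x => (hx.2 x).2⟩
    · intro h
      exfalso
      refine h (mem_cfg.mpr ⟨by simp, fun x => ⟨mem_univ x, rfl⟩⟩)
  · refine SC_eq_zero fun e F hT hs => h ?_
    rw [← hs]
    exact Finset.sum_eq_zero fun x _ => (hT x).2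

/-- **Trunk lemma** -/
theorem Z_trunk {i s n : ℕ} (hn : n + s ≤ i) (hc : ∀ x : Q, lev x < s → ChainBelow i x) :
    Z Q i n = X ^ ((univ : Finset Q).filter (fun x => lev x < s)).card *
      Z {x : Q // s ≤ lev x} (i - s) n := by
  classical
  rw [Z_eq_SC_vd, SC_congr_n (T' := fun e F => Vd i e F ∧ ∀ x, lev x < s → x ∈ F ∧ e x = 0)
    (fun e F hs => ⟨fun h => ⟨h, fun x hx => trunk_forced h hs hn hx (hc x hx)⟩,
      fun h => h.1⟩)]
  rw [SC_prod (fun x => s ≤ lev x) _ (fun e F => Vd (i - s) e F)
    (fun e F => ∀ x, x ∈ F ∧ e x = 0) (fun e F => vd_trunk_iff (by omega) e F) n]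
  rw [Finset.sum_eq_single (n, 0)]
  · rw [← Z_eq_SC_vd, SC_full, if_pos rfl, mul_comm]
    congr 2
    rw [Fintype.card_subtype]
    congr 1
    ext x
    simp
  · rintro ⟨a, b⟩ hab hne
    rw [HasAntidiagonal.mem_antidiagonal] at hab
    rw [SC_full, if_neg, mul_zero]
    intro hb
    simp only at hab hb
    subst hb
    exact hne (by rw [Prod.mk.injEq]; exact ⟨by omega, rfl⟩)
  · intro h
    exact absurd (HasAntidiagonal.mem_antidiagonal.mpr (by simp)) h

/-- chains from elements far below -/
lemma chainBelow_of_le (hgr : GradedBelow Q) {i : ℕ} {x z : Q} (hzx : z ≤ x)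
    (hz : i ≤ lev z + 1) : ChainBelow i x := by
  classical
  have hstep : ∀ w : Q, z < w → ∃ w', z ≤ w' ∧ w' < w ∧ lev w' = lev w + 1 := fun w hw => hgr z w hw
  choose! f hf using hstep
  let g : ℕ → Q := fun k =>
    Nat.rec (motive := fun _ => Q) x (fun _ w => if z < w then f w else w) k
  have hg0 : g 0 = x := rfl
  have hgs : ∀ k, g (k + 1) = if z < g k then f (g k) else g k := fun k => rfl
  have hinv : ∀ k, lev x + k < i → z ≤ g k ∧ lev (g k) = lev x + k := by
    intro k
    induction k with
    | zero => intro _; exact ⟨hzx, rfl⟩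
    | succ k ih =>
      intro hk
      obtain ⟨h1, h2⟩ := ih (by omega)
      have h3 : z < g k := by
        refine lt_of_le_of_ne h1 fun h => ?_
        rw [← h] at h2
        omega
      rw [hgs, if_pos h3]
      have h4 := hf (g k) h3
      exact ⟨h4.1, by omega⟩
  refine ⟨fun l => g (l - lev x), by simp [hg0], fun l hl hli => ⟨?_, fun h => ?_⟩⟩
  · have := (hinv (l - lev x) (by omega)).2
    show lev (g (l - lev x)) = l
    omega
  · obtain ⟨h1, h2⟩ := hinv (l - lev x) (by omega)
    have h3 : z < g (l - lev x) := by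
      refine lt_of_le_of_ne h1 fun h' => ?_
      rw [← h'] at h2
      omega
    show g (l + 1 - lev x) < g (l - lev x)
    rw [show l + 1 - lev x = (l - lev x) + 1 by omega, hgs, if_pos h3]
    exact (hf _ h3).2.1

end Pool.Agent.GaussPoset
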