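import Pool.Agent.W_448s8f_h61.TB
import Pool.Agent.W_448s8_h94.QdD

/-!
The path of the seven-cell word below a longer trunk: elements above the path
(MP_448cb3_co, S8, finite part).
-/

namespace Pool.Agent.GaussPoset

set_option linter.unusedSectionVars false

open Polynomial Finset Wd Cl

universe u

variable {P : Type u} [Fintype P] [PartialOrder P] [DecidableEq P]

/-- splitting off the configurations in which `z` is dangerous -/
theorem Z_split_one {i : ℕ} {z : P} (hz : i < lev z) (n : ℕ) :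
    Z P i n = Z {x : P // x ∉ dnf z} i n + ZD i z 1 n := by
  classical
  have hD : ∀ x y : P, x ≤ y → y ∈ dnf z → x ∈ dnf z := by
    intro x y hxy hy
    rw [mem_dnf] at hy ⊢
    exact hxy.trans hy
  have hlev : ∀ x ∈ dnf z, i < lev x := by
    intro x hx
    rw [mem_dnf] at hx
    rcases eq_or_lt_of_le hx with h | h
    · rw [h]; exact hz
    · have := lev_strictAnti h
      omega
  rw [← ZB_off hD hlev, Z_eq_ZB, ZD_eq hz]
  unfold ZB
  rw [← Finset.sum_add_distrib]
  refine Finset.sum_congr rfl fun F _ => ?_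
  rw [← Finset.sum_filter_add_sum_filter_not (((univ : Finset P).piAntidiag n).filter
    (fun e => Cst i ∅ 0 0 e F)) (fun e => z ∈ F ∨ 1 ≤ e z), add_comm]
  rw [Finset.filter_filter, Finset.filter_filter]
  congr 1
  · refine Finset.sum_congr (Finset.filter_congr fun e _ => ?_) (fun _ _ => rfl)
    constructor
    · rintro ⟨h1, h2⟩
      rw [not_or, not_le, Nat.lt_one_iff] at h2
      refine ⟨h1.1, fun x hx => ?_, fun x _ hxF => by simpa using h1.1.2.1 x hxF⟩
      rw [mem_dnf] at hx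
      have hxF : x ∉ F := fun h => h2.1 (h1.1.1 x z hx h)
      refine ⟨hxF, ?_⟩
      have h3 := h1.1.2.2.1 x z hx hxF h2.1
      rw [rho_of_lt hz, rho_of_lt (hlev x (mem_dnf.mpr hx)), h2.2] at h3
      show e x = 0
      omega
    · rintro ⟨h1, h2, h3⟩
      have h4 := h2 z (mem_dnf.mpr le_rfl)
      have h5 : e z = 0 := h4.2
      refine ⟨⟨h1, fun x hx => absurd hx (Finset.notMem_empty x),
        fun x _ hxF => by simpa using h1.2.1 x hxF⟩, ?_⟩
      rintro (h | h)
      · exact h4.1 h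
      · omega
  · refine Finset.sum_congr (Finset.filter_congr fun e _ => ?_) (fun _ _ => rfl)
    constructor
    · rintro ⟨h1, h2⟩
      exact ⟨h1.1, h2⟩
    · rintro ⟨h1, h2⟩
      exact ⟨⟨h1, fun x hx => absurd hx (Finset.notMem_empty x),
        fun x _ hxF => by simpa using h1.2.1 x hxF⟩, h2⟩

section Path

variable {r a : ℕ} {t : P} {lo hi : ℕ → ℕ} {e : ℕ → ℕ → P}

/-- data of a component with the seven-cell word -/
structure S7 (r a : ℕ) (t : P) (lo hi : ℕ → ℕ) (e : ℕ → ℕ → P) : Prop where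
  C : Cp.Comp (a + 7) t lo hi e
  D : WordD (a + 7) a wa7 lo hi
  H : Gr P r
  hg : ∀ l, l < a + 7 → Win.Good P l
  ht : lev t = 0

variable (A : S7 r a t lo hi e)

include A

lemma S7.lo7 {u : ℕ} (hu : u ≤ 7) : lo (a + u) = (wa7.take u).countP (fun l => l.1) := by
  rw [(A.D.rows A.C).1 _ (by omega)]
  unfold losW
  rw [if_neg (by omega), Nat.add_sub_cancel_left]

lemma S7.hi7 {u : ℕ} (hu : u ≤ 7) : hi (a + u) = 1 + (wa7.take u).countP (fun l => l.2) := by
  rw [(A.D.rows A.C).2 _ (by omega)]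
  unfold hisW
  rw [if_neg (by omega), Nat.add_sub_cancel_left]

lemma S7.trunk {k : ℕ} (hk : k < a) : lo k = 0 ∧ hi k = 0 := A.D.trunk k hk

/-- the path cells are in their rows -/
lemma S7.row {u : ℕ} (hu : u ≤ 7) : lo (a + u) ≤ u ∧ u ≤ hi (a + u) := by
  rw [A.lo7 hu, A.hi7 hu]
  interval_cases u <;> decide

lemma S7.lev_p {u : ℕ} (hu : u ≤ 7) : lev (e (a + u) u) = a + u :=
  A.C.lev_e _ _ (by omega) (A.row hu).1 (A.row hu).2

lemma S7.p_mem {u : ℕ} (hu : u ≤ 7) : e (a + u) u ∈ lowPart (a + 7) t :=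
  mem_lowPart.mpr ⟨A.C.le_t _ _ (by omega) (A.row hu).1 (A.row hu).2, by
    rw [A.lev_p hu]; omega⟩

lemma S7.up {x y : P} (hxy : x ≤ y) (hx : x ∈ lowPart (a + 7) t) : y ∈ lowPart (a + 7) t :=
  lowPart_up A.H A.hg A.ht hxy hx

lemma S7.p_cov {u : ℕ} (hu : u + 1 ≤ 7) : e (a + (u + 1)) (u + 1) ⋖ e (a + u) u := by
  have h1 := A.row (u := u + 1) hu
  have h2 := A.row (u := u) (by omega)
  exact (A.C.cov (a + u) (u + 1) u (by omega) h1.1 h1.2 h2.1 h2.2).mpr (Or.inr rfl)

/-- the path is a chain -/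
lemma S7.p_le {u v : ℕ} (huv : u ≤ v) (hv : v ≤ 7) : e (a + v) v ≤ e (a + u) u := by
  induction v with
  | zero =>
    rw [show u = 0 by omega]
  | succ v ih =>
    rcases Nat.lt_or_ge v u with h | h
    · rw [show u = v + 1 by omega]
    · exact (A.p_cov hv).le.trans (ih h (by omega))

lemma S7.row_a : lo a = 0 ∧ hi a = 1 := A.D.row

lemma S7.p_le1 {u : ℕ} (h1 : 1 ≤ u) (hu : u ≤ 7) : e (a + u) u ≤ e a 1 := by
  refine (A.p_le h1 hu).trans ?_
  have h2 := A.row (u := 1) (by omega)
  have h3 := A.row_a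
  exact ((A.C.cov a 1 1 (by omega) h2.1 h2.2 (by omega) (by omega)).mpr (Or.inl rfl)).le

lemma S7.p_le0 {u : ℕ} (hu : u ≤ 7) : e (a + u) u ≤ e a 0 := A.p_le (Nat.zero_le u) hu

/-- the elements above a path cell -/
lemma S7.above {u : ℕ} (hu : u ≤ 7) {x : P} (hx : e (a + u) u ≤ x) (hax : a < lev x) :
    ∃ v, 1 ≤ v ∧ v ≤ u ∧ x = e (a + v) v := by
  induction u with
  | zero =>
    exfalso
    rcases eq_or_lt_of_le hx with h | h
    · rw [← h, A.lev_p hu] at hax; omega
    · have := lev_strictAnti h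
      rw [A.lev_p hu] at this
      omega
  | succ u ih =>
    rcases eq_or_lt_of_le hx with h | h
    · exact ⟨u + 1, by omega, le_rfl, h.symm⟩
    · obtain ⟨y, hy, hyx⟩ := Hul.exists_cov h
      have h1 := A.row (u := u + 1) hu
      obtain ⟨s', h3, h4, h5, h6⟩ := A.C.cov_up A.H A.hg A.ht (k := a + u) (by omega) h1.1 h1.2 hy
      rcases Nat.eq_zero_or_pos u with rfl | hu0
      · exfalso
        have h7 : lev y ≤ a := by
          rw [h5, A.C.lev_e _ _ (by omega) h3 h4]
          omega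
        rcases eq_or_lt_of_le hyx with h8 | h8
        · rw [← h8] at hax; omega
        · have := lev_strictAnti h8
          omega
      · have h7 : hi (a + u) = u := by
          rw [A.hi7 (by omega)]
          have h8 : u ≤ 6 := by omega
          interval_cases u <;> decide
        have h8 : s' = u := by omega
        subst h8
        obtain ⟨v, hv1, hv2, hv3⟩ := ih (by omega) (by rw [← h5]; exact hyx)
        exact ⟨v, hv1, by omega, hv3⟩

/-- elements of the trunk -/
lemma S7.trunk_eq {x : P} (hx : x ∈ lowPart (a + 7) t) (hl : lev x < a) : x = e (lev x) 0 := by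
  have h := mem_lowPart.mp hx
  obtain ⟨s, h1, h2, h3⟩ := A.C.surj x h.1 h.2
  have h4 := A.trunk hl
  have hs : s = 0 := by omega
  rw [hs] at h3
  exact h3.symm

lemma S7.row_eq {x : P} (hx : x ∈ lowPart (a + 7) t) (hl : lev x = a) : x = e a 0 ∨ x = e a 1 := by
  have h := mem_lowPart.mp hx
  obtain ⟨s, h1, h2, h3⟩ := A.C.surj x h.1 h.2
  have h4 := A.row_a
  rw [hl] at h1 h2 h3
  rcases Nat.eq_zero_or_pos s with h | h
  · left; rw [← h3, h]
  · right; rw [← h3, show s = 1 by omega]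

/-- the trunk is above everything below it -/
lemma S7.le_trunk {x y : P} (hx : x ∈ lowPart (a + 7) t) (hy : y ∈ lowPart (a + 7) t)
    (hyl : lev y < a) (hxy : lev y ≤ lev x) : x ≤ y := by
  obtain ⟨w, hw1, hw2⟩ := exists_above' (x := x) (j := lev y) hxy
  have hw := A.up hw1 hx
  have h1 := A.trunk_eq hw (by omega)
  have h2 := A.trunk_eq hy hyl
  rw [hw2] at h1
  rw [h2, ← h1]
  exact hw1

lemma S7.nab_p {u v : ℕ} (hu : u ≤ 7) (h1 : 1 ≤ v) (hv : v ≤ u) :
    nab (a + v) (e (a + u) u) = 1 := by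
  classical
  unfold nab
  rw [Finset.card_eq_one]
  refine ⟨e (a + v) v, ?_⟩
  ext x
  rw [mem_filter, mem_lv, mem_singleton]
  constructor
  · rintro ⟨h2, h3⟩
    obtain ⟨w, hw1, hw2, hw3⟩ := A.above hu h3 (by omega)
    have h4 : lev x = a + w := by rw [hw3]; exact A.lev_p (by omega)
    rw [hw3, show w = v by omega]
  · rintro rfl
    exact ⟨A.lev_p (by omega), A.p_le hv hu⟩

lemma S7.e_ne : e a 0 ≠ e a 1 := by
  intro h
  have h1 := A.row_a
  have := A.C.inj a 0 1 (by omega) (by omega) (by omega) (by omega) (by omega) h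
  omega

lemma S7.lev_e0 : lev (e a 0) = a := A.C.lev_e _ _ (by omega) (by have := A.row_a; omega)
  (by have := A.row_a; omega)

lemma S7.lev_e1 : lev (e a 1) = a := A.C.lev_e _ _ (by omega) (by have := A.row_a; omega)
  (by have := A.row_a; omega)

lemma S7.nab_a {u : ℕ} (hu : u ≤ 7) (h1 : 1 ≤ u) : nab a (e (a + u) u) = 2 := by
  classical
  unfold nab
  rw [Finset.card_eq_two]
  refine ⟨e a 0, e a 1, A.e_ne, ?_⟩
  ext x
  rw [mem_filter, mem_lv, mem_insert, mem_singleton]
  constructor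
  · rintro ⟨h2, h3⟩
    exact A.row_eq (A.up h3 (A.p_mem hu)) h2
  · rintro (rfl | rfl)
    · exact ⟨A.lev_e0, A.p_le0 hu⟩
    · exact ⟨A.lev_e1, A.p_le1 h1 hu⟩

/-- the cost of a path cell -/
lemma S7.ct_p {u : ℕ} (hu : u ≤ 7) : ct a 1 (e (a + u) u) = u := by
  classical
  unfold ct
  rw [cst_eq, A.lev_p hu, show a + u + 1 = (a + 1) + u by omega, Finset.sum_range_add]
  rw [Finset.sum_eq_zero (s := range (a + 1)), zero_add]
  · rw [Finset.sum_congr rfl (g := fun _ => 1), Finset.sum_const, card_range, smul_eq_mul, mul_one]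
    intro x hx
    rw [mem_range] at hx
    have h1 : a + 1 + x = a + (x + 1) := by omega
    rw [h1, A.nab_p hu (by omega) (by omega)]
    omega
  · intro x hx
    rw [mem_range] at hx
    rw [show x - a = 0 by omega]
    simp

end Path

end Pool.Agent.GaussPoset
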