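import Pool.Agent.W_448s8f_h61.TC

/-!
First poles over the seven-cell word (MP_448cb3_co, S8, finite part).
-/

namespace Pool.Agent.GaussPoset

set_option linter.unusedSectionVars false

open Polynomial Finset Wd Cl

universe u

variable {P : Type u} [Fintype P] [PartialOrder P] [DecidableEq P]
variable {r a : ℕ} {t : P} {lo hi : ℕ → ℕ} {e : ℕ → ℕ → P} (A : S7 r a t lo hi e)
include A

/-- an upper part which contains the end of the path contains the levels `≤ a` -/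
lemma S7.low_mem {L : Finset P} (hup : ∀ x y, x ≤ y → x ∈ L → y ∈ L) {u : ℕ} (h1 : 1 ≤ u)
    (hu : u ≤ 7) (hz : e (a + u) u ∈ L) {x : P} (hx : x ∈ lowPart (a + 7) t) (hxa : lev x ≤ a) :
    x ∈ L := by
  refine hup _ _ ?_ hz
  rcases Nat.lt_or_ge (lev x) a with h | h
  · exact A.le_trunk (A.p_mem hu) hx h (by rw [A.lev_p hu]; omega)
  · rcases A.row_eq hx (by omega) with rfl | rfl
    · exact A.p_le0 hu
    · exact A.p_le1 h1 hu

/-- **T7_dvd** -/
theorem S7.T7_dvd (ha : 7 ≤ a) {L : Finset P} (hL : L ⊆ lowPart (a + 7) t)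
    (hup : ∀ x y, x ≤ y → x ∈ L → y ∈ L) (h7 : e (a + 7) 7 ∈ L) {n : ℕ} (hn : n ≤ 7) :
    (1 + X : ℤ[X]) ^ 2 ∣ Z {x // x ∈ L} a n := by
  classical
  have hs : ∀ x y : P, x ≤ y → x ∈ L → y ∈ L := hup
  have hlev : ∀ x : {x // x ∈ L}, lev x = lev (x : P) := fun x =>
    lev_subtype (p := fun x => x ∈ L) hs x
  have hgr : GradedBelow {x // x ∈ L} := gbel_sub (p := fun x => x ∈ L) hs A.H.gradedBelow
  rw [Z_trunk (s := a - 7) (by omega)]
  · rw [show a - (a - 7) = 7 by omega]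
    exact (La7_part A.C A.D A.H A.hg A.ht ha hL hup h7 n).mul_left _
  · intro x hx
    rw [hlev] at hx
    refine chainBelow_of_le hgr (z := ⟨e (a + 7) 7, h7⟩) ?_ ?_
    · exact A.le_trunk (A.p_mem le_rfl) (hL x.2) (by omega) (by rw [A.lev_p le_rfl]; omega)
    · rw [hlev]
      show a ≤ lev (e (a + 7) 7) + 1
      rw [A.lev_p le_rfl]
      omega

/-- the path cells from `u` on -/
noncomputable def pcl (a : ℕ) (e : ℕ → ℕ → P) (u : ℕ) : Finset P :=
  (Finset.Icc u 7).image (fun v => e (a + v) v)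

omit A in
lemma mem_pcl {a : ℕ} {e : ℕ → ℕ → P} {u : ℕ} {x : P} :
    x ∈ pcl a e u ↔ ∃ v, u ≤ v ∧ v ≤ 7 ∧ x = e (a + v) v := by
  unfold pcl
  rw [mem_image]
  constructor
  · rintro ⟨v, hv, h⟩
    rw [mem_Icc] at hv
    exact ⟨v, hv.1, hv.2, h.symm⟩
  · rintro ⟨v, h1, h2, h3⟩
    exact ⟨v, mem_Icc.mpr ⟨h1, h2⟩, h3.symm⟩

section Add

variable {L : Finset P} (hL : L ⊆ lowPart (a + 7) t) (hup : ∀ x y, x ≤ y → x ∈ L → y ∈ L)
  {u : ℕ} (hu1 : 1 ≤ u) (hu : u ≤ 7) (hin : e (a + (u - 1)) (u - 1) ∈ L)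
  (h1L : e a 1 ∈ L)
  (hout : e (a + u) u ∉ L)

include hL hup hu1 hu hin h1L hout

lemma S7.add_up : ∀ x y, x ≤ y → x ∈ L ∪ pcl a e u → y ∈ L ∪ pcl a e u := by
  intro x y hxy hx
  rw [mem_union] at hx
  rcases hx with hx | hx
  · exact mem_union_left _ (hup x y hxy hx)
  · obtain ⟨v, h1, h2, rfl⟩ := mem_pcl.mp hx
    have hy := A.up hxy (A.p_mem h2)
    by_cases hya : a < lev y
    · obtain ⟨w, hw1, hw2, rfl⟩ := A.above h2 hxy hya
      rcases Nat.lt_or_ge w u with h | h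
      · exact mem_union_left _ (hup _ _ (A.p_le (u := w) (v := u - 1) (by omega) (by omega)) hin)
      · exact mem_union_right _ (mem_pcl.mpr ⟨w, h, by omega, rfl⟩)
    · refine mem_union_left _ ?_
      rcases Nat.lt_or_ge (lev y) a with h | h
      · refine hup _ _ ?_ h1L
        refine A.le_trunk (A.up (A.p_le1 h1' h2') (A.p_mem h2')) hy h (by rw [A.lev_e1]; omega)
      · rcases A.row_eq hy (by omega) with rfl | rfl
        · exact hup _ _ (A.p_le0 (u := u - 1) (by omega)) hin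
        · exact h1L
  where
    h1' : 1 ≤ 1 := le_rfl
    h2' : 1 ≤ 7 := by omega

lemma S7.add_sub : L ∪ pcl a e u ⊆ lowPart (a + 7) t := by
  refine union_subset hL ?_
  intro x hx
  obtain ⟨v, -, h2, rfl⟩ := mem_pcl.mp hx
  exact A.p_mem h2

/-- adding the rest of the path -/
theorem S7.add_path (n : ℕ) : ∃ z : {x // x ∈ L ∪ pcl a e u}, (z : P) = e (a + u) u ∧
    Z {x // x ∈ L ∪ pcl a e u} a n = Z {x // x ∈ L} a n + ZD a z 1 n := by
  classical
  have hUp := A.add_up hL hup hu1 hu hin h1L hout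
  have hzm : e (a + u) u ∈ L ∪ pcl a e u :=
    mem_union_right _ (mem_pcl.mpr ⟨u, le_rfl, hu, rfl⟩)
  refine ⟨⟨e (a + u) u, hzm⟩, rfl, ?_⟩
  have hlz : a < lev (⟨e (a + u) u, hzm⟩ : {x // x ∈ L ∪ pcl a e u}) := by
    rw [lev_subtype (p := fun x => x ∈ L ∪ pcl a e u) hUp]
    show a < lev (e (a + u) u)
    rw [A.lev_p hu]
    omega
  rw [Z_split_one hlz n]
  congr 1
  refine Z_iso (subIso (fun x => ?_)) a n
  constructor
  · intro hx
    refine ⟨mem_union_left _ hx, ?_⟩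
    rw [mem_dnf]
    intro h
    exact hout (hup _ _ h hx)
  · rintro ⟨h1, h2⟩
    rw [mem_dnf] at h2
    rcases mem_union.mp h1 with h3 | h3
    · exact h3
    · exfalso
      obtain ⟨v, h4, h5, rfl⟩ := mem_pcl.mp h3
      exact h2 (A.p_le h4 h5)

end Add

end Pool.Agent.GaussPoset
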