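import Pool.Agent.W_448s8f_h61.TD

/-!
First poles over the seven-cell word, part two (MP_448cb3_co, S8, finite part).
-/

namespace Pool.Agent.GaussPoset

set_option linter.unusedSectionVars false

open Polynomial Finset Wd Cl

universe u

variable {P : Type u} [Fintype P] [PartialOrder P] [DecidableEq P]

lemma nabL {L : Finset P} (hup : ∀ x y, x ≤ y → x ∈ L → y ∈ L) (k : ℕ) (z : {x // x ∈ L}) :
    nab k z = nab k (z : P) := by
  classical
  have hlev : ∀ x : {x // x ∈ L}, lev x = lev (x : P) := fun x =>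
    lev_subtype (p := fun x => x ∈ L) hup x
  unfold nab
  refine Finset.card_bij (fun x _ => (x : P)) ?_ ?_ ?_
  · intro x hx
    rw [mem_filter, mem_lv, hlev] at hx
    rw [mem_filter, mem_lv]
    exact hx
  · intro x _ y _ h
    exact Subtype.ext h
  · intro x hx
    rw [mem_filter, mem_lv] at hx
    refine ⟨⟨x, hup _ _ hx.2 z.2⟩, ?_, rfl⟩
    rw [mem_filter, mem_lv, hlev]
    exact hx

lemma ctL {L : Finset P} (hup : ∀ x y, x ≤ y → x ∈ L → y ∈ L) (i k : ℕ) (z : {x // x ∈ L}) :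
    ct i k z = ct i k (z : P) := by
  have hlev : lev z = lev (z : P) := lev_subtype (p := fun x => x ∈ L) hup z
  unfold ct
  rw [cst_eq, cst_eq, hlev]
  exact Finset.sum_congr rfl fun l _ => by rw [nabL hup]

lemma nst_oneL (i : ℕ) (z : P) : nst i (fun _ => 1) z = nab i z := by
  classical
  unfold nst nab
  congr 1
  ext x
  simp only [mem_filter, mem_univ, true_and, mem_lv]
  constructor
  · rintro ⟨h1, h2, h3⟩
    exact ⟨by omega, h1⟩
  · rintro ⟨h1, h2⟩
    exact ⟨h2, by omega, by omega⟩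

variable {r a : ℕ} {t : P} {lo hi : ℕ → ℕ} {e : ℕ → ℕ → P} (A : S7 r a t lo hi e)
include A

/-- the coordinate does not increase upwards -/
lemma S7.coord {l s' : ℕ} (hl : l ≤ a + 7) (h3 : lo l ≤ s') (h4 : s' ≤ hi l) :
    ∀ k s, k ≤ a + 7 → lo k ≤ s → s ≤ hi k → e k s ≤ e l s' → s' ≤ s := by
  intro k
  induction k with
  | zero =>
    intro s hk h1 h2 h
    have e1 := A.C.lev_e 0 s hk h1 h2
    have e2 := A.C.lev_e l s' hl h3 h4
    rcases eq_or_lt_of_le h with h5 | h5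
    · have e3 : l = 0 := by rw [← e2, ← h5, e1]
      subst e3
      exact (A.C.inj 0 s s' hk h1 h2 h3 h4 h5).ge
    · have := lev_strictAnti h5
      omega
  | succ k ih =>
    intro s hk h1 h2 h
    have e1 := A.C.lev_e (k + 1) s hk h1 h2
    have e2 := A.C.lev_e l s' hl h3 h4
    rcases eq_or_lt_of_le h with h5 | h5
    · have e3 : l = k + 1 := by rw [← e2, ← h5, e1]
      subst e3
      exact (A.C.inj (k + 1) s s' hk h1 h2 h3 h4 h5).ge
    · obtain ⟨y, hy, hyl⟩ := Hul.exists_cov h5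
      obtain ⟨s'', h6, h7, h8, h9⟩ := A.C.cov_up A.H A.hg A.ht (k := k) (by omega) h1 h2 hy
      have := ih s'' (by omega) h6 h7 (by rw [← h8]; exact hyl)
      omega

lemma S7.row3 {u : ℕ} (h3 : 3 ≤ u) (hu : u ≤ 7) : lo (a + u) ≤ 3 ∧ 3 ≤ hi (a + u) := by
  rw [A.lo7 hu, A.hi7 hu]
  interval_cases u <;> decide

/-- the side of the strip -/
lemma S7.side {u : ℕ} (h3 : 3 ≤ u) (hu : u ≤ 7) : e (a + 7) 3 ≤ e (a + u) 3 := by
  have key : ∀ d, u + d ≤ 7 → e (a + (u + d)) 3 ≤ e (a + u) 3 := by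
    intro d
    induction d with
    | zero => intro _; exact le_rfl
    | succ d ih =>
      intro hd
      have h1 := A.row3 (u := u + (d + 1)) (by omega) hd
      have h2 := A.row3 (u := u + d) (by omega) (by omega)
      exact ((A.C.cov (a + (u + d)) 3 3 (by omega) h1.1 h1.2 h2.1 h2.2).mpr (Or.inl rfl)).le.trans
        (ih (by omega))
  have := key (7 - u) (by omega)
  rwa [show u + (7 - u) = 7 by omega] at this

lemma S7.side_mem {L : Finset P} (hup : ∀ x y, x ≤ y → x ∈ L → y ∈ L) (h3 : e (a + 7) 3 ∈ L)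
    {u : ℕ} (hu : u ≤ 3) : e (a + u) u ∈ L :=
  hup _ _ ((A.side le_rfl (by omega)).trans (A.p_le hu (by omega))) h3

/-- **T7_dvd'** -/
theorem S7.T7_dvd' (ha : 7 ≤ a) {L : Finset P} (hL : L ⊆ lowPart (a + 7) t)
    (hup : ∀ x y, x ≤ y → x ∈ L → y ∈ L) (h3 : e (a + 7) 3 ∈ L) {n : ℕ} (hn : n < 4) :
    (1 + X : ℤ[X]) ^ 2 ∣ Z {x // x ∈ L} a n := by
  classical
  by_cases h7 : e (a + 7) 7 ∈ L
  · exact A.T7_dvd ha hL hup h7 (by omega)
  have hex : ∃ u, e (a + u) u ∉ L := ⟨7, h7⟩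
  set u := Nat.find hex with hu_def
  have hout : e (a + u) u ∉ L := Nat.find_spec hex
  have hu : u ≤ 7 := Nat.find_min' hex h7
  have hmin : ∀ v, v < u → e (a + v) v ∈ L := fun v hv => by
    by_contra h
    exact Nat.find_min hex hv h
  have hu4 : 4 ≤ u := by
    by_contra hcon
    exact hout (A.side_mem hup h3 (by omega))
  have h1L : e a 1 ∈ L := hup _ _ (A.p_le1 (u := 1) le_rfl (by omega)) (hmin 1 (by omega))
  have hUp := A.add_up hL hup (by omega) hu (hmin (u - 1) (by omega)) h1L hout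
  have hsub := A.add_sub hL hup (by omega) hu (hmin (u - 1) (by omega)) h1L hout
  obtain ⟨z, hz, hZ⟩ := A.add_path hL hup (by omega) hu (hmin (u - 1) (by omega)) h1L hout n
  have h1 : (1 + X : ℤ[X]) ^ 2 ∣ Z {x // x ∈ L ∪ pcl a e u} a n :=
    A.T7_dvd ha hsub hUp (mem_union_right _ (mem_pcl.mpr ⟨7, hu, le_rfl, rfl⟩)) (by omega)
  have hlz : lev z = a + u := by
    rw [lev_subtype (p := fun x => x ∈ L ∪ pcl a e u) hUp, hz, A.lev_p hu]
  have hct : ct a 1 z = u := by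
    rw [ctL hUp, hz, A.ct_p hu]
  rw [hZ, ZD_zero (by omega) (by omega), add_zero] at h1
  exact h1

/-- the number of elements of a part on the levels of the trunk -/
lemma S7.below_sub {L : Finset P} (hL : L ⊆ lowPart (a + 7) t)
    (hup : ∀ x y, x ≤ y → x ∈ L → y ∈ L) {u : ℕ} (h1 : 1 ≤ u) (hu : u ≤ 7)
    (hz : e (a + u) u ∈ L) : below {x // x ∈ L} a = a := by
  classical
  unfold below
  have hlev : ∀ x : {x // x ∈ L}, lev x = lev (x : P) := fun x =>
    lev_subtype (p := fun x => x ∈ L) hup x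
  have h0 : (range a).card = a := card_range a
  conv_rhs => rw [← h0]
  refine Finset.card_bij (fun x _ => lev x) ?_ ?_ ?_
  · intro x hx
    rw [mem_filter] at hx
    exact mem_range.mpr hx.2
  · intro x hx y hy h
    rw [mem_filter] at hx hy
    rw [hlev] at hx hy
    rw [hlev, hlev] at h
    apply Subtype.ext
    rw [A.trunk_eq (hL x.2) hx.2, A.trunk_eq (hL y.2) hy.2, h]
  · intro k hk
    rw [mem_range] at hk
    have h2 := A.trunk hk
    have h3 : lev (e k 0) = k := A.C.lev_e k 0 (by omega) (by omega) (by omega)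
    have h4 : e k 0 ∈ lowPart (a + 7) t :=
      mem_lowPart.mpr ⟨A.C.le_t k 0 (by omega) (by omega) (by omega), by omega⟩
    have h5 : e k 0 ∈ L := A.low_mem hup h1 hu hz h4 (by omega)
    refine ⟨⟨e k 0, h5⟩, ?_, ?_⟩
    · rw [mem_filter, hlev]
      exact ⟨mem_univ _, by show lev (e k 0) < a; omega⟩
    · rw [hlev]
      exact h3

lemma S7.lv_sub {L : Finset P} (hL : L ⊆ lowPart (a + 7) t)
    (hup : ∀ x y, x ≤ y → x ∈ L → y ∈ L) {u : ℕ} (h1 : 1 ≤ u) (hu : u ≤ 7)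
    (hz : e (a + u) u ∈ L) : (lv {x // x ∈ L} a).card = 2 := by
  classical
  have hlev : ∀ x : {x // x ∈ L}, lev x = lev (x : P) := fun x =>
    lev_subtype (p := fun x => x ∈ L) hup x
  have m0 : e a 0 ∈ L := A.low_mem hup h1 hu hz
    (A.up (A.p_le0 hu) (A.p_mem hu)) (by rw [A.lev_e0])
  have m1 : e a 1 ∈ L := A.low_mem hup h1 hu hz
    (A.up (A.p_le1 h1 hu) (A.p_mem hu)) (by rw [A.lev_e1])
  rw [Finset.card_eq_two]
  refine ⟨⟨e a 0, m0⟩, ⟨e a 1, m1⟩, fun h => A.e_ne (congrArg Subtype.val h), ?_⟩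
  ext x
  rw [mem_lv, hlev, mem_insert, mem_singleton]
  constructor
  · intro h
    rcases A.row_eq (hL x.2) h with h' | h'
    · exact Or.inl (Subtype.ext h')
    · exact Or.inr (Subtype.ext h')
  · rintro (rfl | rfl)
    · exact A.lev_e0
    · exact A.lev_e1

/-- the leading term of a path cell -/
lemma S7.Lt_p {L : Finset P} (hL : L ⊆ lowPart (a + 7) t)
    (hup : ∀ x y, x ≤ y → x ∈ L → y ∈ L) {u : ℕ} (h1 : 1 ≤ u) (hu : u ≤ 7)
    (z : {x // x ∈ L}) (hz : (z : P) = e (a + u) u) :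
    Lt a (fun _ => 1) z = X ^ (a + 2) * (1 + X) := by
  classical
  have hzL : e (a + u) u ∈ L := by rw [← hz]; exact z.2
  unfold Lt
  rw [nst_oneL, A.below_sub hL hup h1 hu hzL, A.lv_sub hL hup h1 hu hzL,
    nabL hup, nabL hup, hz, A.nab_a hu h1]
  simp only []
  rw [A.nab_p (v := 1) hu le_rfl h1]
  norm_num

/-- the first pole at the first missing path cell -/
theorem S7.T7_lead (ha : 7 ≤ a) {L : Finset P} (hL : L ⊆ lowPart (a + 7) t)
    (hup : ∀ x y, x ≤ y → x ∈ L → y ∈ L) {u : ℕ} (hu1 : 1 ≤ u) (hu : u ≤ 7)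
    (hin : e (a + (u - 1)) (u - 1) ∈ L) (h1L : e a 1 ∈ L) (hout : e (a + u) u ∉ L) :
    (1 + X : ℤ[X]) ^ 2 ∣ Z {x // x ∈ L} a u + X ^ (a + 2) * (1 + X) := by
  classical
  have hUp := A.add_up hL hup hu1 hu hin h1L hout
  have hsub := A.add_sub hL hup hu1 hu hin h1L hout
  obtain ⟨z, hz, hZ⟩ := A.add_path hL hup hu1 hu hin h1L hout u
  have h1 : (1 + X : ℤ[X]) ^ 2 ∣ Z {x // x ∈ L ∪ pcl a e u} a u :=
    A.T7_dvd ha hsub hUp (mem_union_right _ (mem_pcl.mpr ⟨7, hu, le_rfl, rfl⟩)) hu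
  have hlz : lev z = a + u := by
    rw [lev_subtype (p := fun x => x ∈ L ∪ pcl a e u) hUp, hz, A.lev_p hu]
  have hct : ct a 1 z = u := by
    rw [ctL hUp, hz, A.ct_p hu]
  have hgr : GradedBelow {x // x ∈ L ∪ pcl a e u} :=
    gbel_sub (p := fun x => x ∈ L ∪ pcl a e u) hUp A.H.gradedBelow
  have h2 := ZD_lead (i := a) (k := 1) (z := z) hgr le_rfl (by omega)
  rw [hct, A.Lt_p hsub hUp hu1 hu z hz] at h2
  rw [hZ, h2] at h1
  exact h1

end Pool.Agent.GaussPoset
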