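import Pool.Agent.W_448s8f_h61.TE

/-!
The two first poles over the seven-cell word (MP_448cb3_co, S8, finite part).
-/

namespace Pool.Agent.GaussPoset

set_option linter.unusedSectionVars false

open Polynomial Finset Wd Cl

universe u

variable {P : Type u} [Fintype P] [PartialOrder P] [DecidableEq P]
variable {r a : ℕ} {t : P} {lo hi : ℕ → ℕ} {e : ℕ → ℕ → P} (A : S7 r a t lo hi e)
include A

section Up

variable {z : P} {L : Finset P} (hL : ∀ x, x ∈ L ↔ x ∈ lowPart (a + 7) t ∧ z ≤ x)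
include hL

omit A in
lemma upc_sub : L ⊆ lowPart (a + 7) t := fun x hx => ((hL x).mp hx).1

lemma S7.upc_up : ∀ x y, x ≤ y → x ∈ L → y ∈ L := by
  intro x y hxy hx
  rw [hL] at hx ⊢
  exact ⟨A.up hxy hx.1, hx.2.trans hxy⟩

end Up

/-- **T7_lead3** -/
theorem S7.T7_lead3 (ha : 7 ≤ a) {L : Finset P}
    (hL : ∀ x, x ∈ L ↔ x ∈ lowPart (a + 7) t ∧ e (a + 7) 3 ≤ x) :
    (1 + X : ℤ[X]) ^ 2 ∣ Z {x // x ∈ L} a 4 + X ^ (a + 2) * (1 + X) := by
  have hup := A.upc_up hL
  have hr7 := A.row3 (u := 7) (by omega) le_rfl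
  have h3 : e (a + 7) 3 ∈ L := (hL _).mpr ⟨mem_lowPart.mpr ⟨A.C.le_t _ _ le_rfl hr7.1 hr7.2,
    (A.C.lev_e _ _ le_rfl hr7.1 hr7.2).le⟩, le_rfl⟩
  have hin : e (a + 3) 3 ∈ L := A.side_mem hup h3 (u := 3) le_rfl
  have h1L : e a 1 ∈ L := hup _ _ (A.p_le1 (u := 1) le_rfl (by omega))
    (A.side_mem hup h3 (u := 1) (by omega))
  have hout : e (a + 4) 4 ∉ L := by
    intro h
    have h4 := ((hL _).mp h).2
    have h5 := A.row (u := 4) (by omega)
    have := A.coord (l := a + 4) (by omega) h5.1 h5.2 (a + 7) 3 le_rfl hr7.1 hr7.2 h4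
    omega
  exact A.T7_lead ha (upc_sub hL) hup (u := 4) (by omega) (by omega) hin h1L hout

section Quad

variable {L : Finset P} (hL : ∀ x, x ∈ L ↔ x ∈ lowPart (a + 7) t ∧ e (a + 7) 7 ≤ x)
include hL

/-- the shape of the up-set of the end of the path -/
lemma S7.q_shape {x : P} (hx : x ∈ L) : (lev x < a ∧ x = e (lev x) 0) ∨
    (lev x = a ∧ x = e a 0) ∨ (lev x = a ∧ x = e a 1) ∨
    ∃ v, 1 ≤ v ∧ v ≤ 7 ∧ lev x = a + v ∧ x = e (a + v) v := by
  have h := (hL x).mp hx
  rcases Nat.lt_trichotomy (lev x) a with h1 | h1 | h1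
  · exact Or.inl ⟨h1, A.trunk_eq h.1 h1⟩
  · rcases A.row_eq h.1 h1 with h2 | h2
    · exact Or.inr (Or.inl ⟨h1, h2⟩)
    · exact Or.inr (Or.inr (Or.inl ⟨h1, h2⟩))
  · obtain ⟨v, h2, h3, h4⟩ := A.above le_rfl h.2 h1
    exact Or.inr (Or.inr (Or.inr ⟨v, h2, h3, by rw [h4]; exact A.lev_p h3, h4⟩))

/-- different levels are comparable -/
lemma S7.q_le {x y : P} (hx : x ∈ L) (hy : y ∈ L) (hxy : lev y < lev x) : x ≤ y := by
  have h1 := (hL x).mp hx
  have h2 := (hL y).mp hy
  rcases A.q_shape hL hy with ⟨h3, -⟩ | ⟨h3, h4⟩ | ⟨h3, h4⟩ | ⟨v, h3, h4, h5, h6⟩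
  · exact A.le_trunk h1.1 h2.1 h3 hxy.le
  · obtain ⟨w, h7, h8, h10⟩ := A.above le_rfl h1.2 (by omega)
    rw [h4, h10]
    exact A.p_le0 h8
  · obtain ⟨w, h7, h8, h10⟩ := A.above le_rfl h1.2 (by omega)
    rw [h4, h10]
    exact A.p_le1 h7 h8
  · obtain ⟨w, h7, h8, h9⟩ := A.above le_rfl h1.2 (by omega)
    have h10 : lev x = a + w := by rw [h9]; exact A.lev_p h8
    rw [h6, h9]
    exact A.p_le (by omega) h8

/-- the up-set of the end of the path is a quadric -/
theorem S7.q_iso : Nonempty ({x : P // x ∈ L} ≃o Qd a 7) := by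
  classical
  let g : P → ℕ := fun x => if lev x < a ∨ x = e a 0 then lev x else lev x + 1
  have g1 : ∀ x, lev x < a → g x = lev x := fun x hx => if_pos (Or.inl hx)
  have g2 : g (e a 0) = a := by
    show (if lev (e a 0) < a ∨ e a 0 = e a 0 then lev (e a 0) else lev (e a 0) + 1) = a
    rw [if_pos (Or.inr rfl), A.lev_e0]
  have g3 : g (e a 1) = a + 1 := by
    show (if lev (e a 1) < a ∨ e a 1 = e a 0 then lev (e a 1) else lev (e a 1) + 1) = a + 1
    rw [if_neg, A.lev_e1]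
    rintro (h | h)
    · rw [A.lev_e1] at h; omega
    · exact A.e_ne h.symm
  have g4 : ∀ v, 1 ≤ v → v ≤ 7 → g (e (a + v) v) = a + v + 1 := by
    intro v h1 h2
    show (if lev (e (a + v) v) < a ∨ e (a + v) v = e a 0 then lev (e (a + v) v) else
      lev (e (a + v) v) + 1) = a + v + 1
    have h3 := A.lev_p h2
    rw [if_neg, h3]
    rintro (h | h)
    · omega
    · have := congrArg lev h
      rw [h3, A.lev_e0] at this
      omega
  have hg : ∀ x ∈ L, g x < a + 7 + 2 := by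
    intro x hx
    rcases A.q_shape hL hx with ⟨h1, h2⟩ | ⟨h1, h2⟩ | ⟨h1, h2⟩ | ⟨v, h1, h2, h3, h4⟩
    · rw [g1 x h1]; omega
    · rw [h2, g2]; omega
    · rw [h2, g3]; omega
    · rw [h4, g4 v h1 h2]; omega
  let f : {x : P // x ∈ L} → Qd a 7 := fun x => Qd.mk (g x) (hg _ x.2)
  have hf : ∀ x, (f x).val = g (x : P) := fun x => rfl
  have hle : ∀ x y, f x ≤ f y ↔ x ≤ y := by
    rintro ⟨x, hx⟩ ⟨y, hy⟩
    rw [Qd.le_iff, hf, hf]
    show (g x = g y ∨ (g y < g x ∧ ¬ (g y = a ∧ g x = a + 1))) ↔ x ≤ y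
    have key : ∀ x ∈ L, ∀ y ∈ L, (g x = g y ↔ x = y) ∧
        ((g y < g x ∧ ¬ (g y = a ∧ g x = a + 1)) ↔ lev y < lev x) := by
      intro x hx y hy
      rcases A.q_shape hL hx with ⟨h1, h2⟩ | ⟨h1, h2⟩ | ⟨h1, h2⟩ | ⟨v, h1, h2, h3, h4⟩ <;>
        rcases A.q_shape hL hy with ⟨k1, k2⟩ | ⟨k1, k2⟩ | ⟨k1, k2⟩ | ⟨w, k1, k2, k3, k4⟩
      · have e1 := g1 x h1
        have e2 := g1 y k1
        refine ⟨⟨fun h => ?_, fun h => by rw [h]⟩, by omega⟩
        rw [e1, e2] at h
        rw [h2, k2, h]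
      · have e1 := g1 x h1
        have e2 : g y = a := by rw [k2, g2]
        refine ⟨⟨fun h => by omega, fun h => by rw [h]⟩, by omega⟩
      · have e1 := g1 x h1
        have e2 : g y = a + 1 := by rw [k2, g3]
        refine ⟨⟨fun h => by omega, fun h => by rw [h]⟩, by omega⟩
      · have e1 := g1 x h1
        have e2 : g y = a + w + 1 := by rw [k4, g4 w k1 k2]
        refine ⟨⟨fun h => by omega, fun h => by rw [h]⟩, by omega⟩
      · have e1 : g x = a := by rw [h2, g2]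
        have e2 := g1 y k1
        refine ⟨⟨fun h => by omega, fun h => by rw [h]⟩, by omega⟩
      · have e1 : g x = a := by rw [h2, g2]
        have e2 : g y = a := by rw [k2, g2]
        refine ⟨⟨fun h => by rw [h2, k2], fun h => by rw [h]⟩, by omega⟩
      · have e1 : g x = a := by rw [h2, g2]
        have e2 : g y = a + 1 := by rw [k2, g3]
        refine ⟨⟨fun h => by omega, fun h => by rw [h]⟩, by omega⟩
      · have e1 : g x = a := by rw [h2, g2]
        have e2 : g y = a + w + 1 := by rw [k4, g4 w k1 k2]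
        refine ⟨⟨fun h => by omega, fun h => by rw [h]⟩, by omega⟩
      · have e1 : g x = a + 1 := by rw [h2, g3]
        have e2 := g1 y k1
        refine ⟨⟨fun h => by omega, fun h => by rw [h]⟩, by omega⟩
      · have e1 : g x = a + 1 := by rw [h2, g3]
        have e2 : g y = a := by rw [k2, g2]
        refine ⟨⟨fun h => by omega, fun h => by rw [h]⟩, by omega⟩
      · have e1 : g x = a + 1 := by rw [h2, g3]
        have e2 : g y = a + 1 := by rw [k2, g3]
        refine ⟨⟨fun h => by rw [h2, k2], fun h => by rw [h]⟩, by omega⟩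
      · have e1 : g x = a + 1 := by rw [h2, g3]
        have e2 : g y = a + w + 1 := by rw [k4, g4 w k1 k2]
        refine ⟨⟨fun h => by omega, fun h => by rw [h]⟩, by omega⟩
      · have e1 : g x = a + v + 1 := by rw [h4, g4 v h1 h2]
        have e2 := g1 y k1
        refine ⟨⟨fun h => by omega, fun h => by rw [h]⟩, by omega⟩
      · have e1 : g x = a + v + 1 := by rw [h4, g4 v h1 h2]
        have e2 : g y = a := by rw [k2, g2]
        refine ⟨⟨fun h => by omega, fun h => by rw [h]⟩, by omega⟩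
      · have e1 : g x = a + v + 1 := by rw [h4, g4 v h1 h2]
        have e2 : g y = a + 1 := by rw [k2, g3]
        refine ⟨⟨fun h => by omega, fun h => by rw [h]⟩, by omega⟩
      · have e1 : g x = a + v + 1 := by rw [h4, g4 v h1 h2]
        have e2 : g y = a + w + 1 := by rw [k4, g4 w k1 k2]
        refine ⟨⟨fun h => ?_, fun h => by rw [h]⟩, by omega⟩
        rw [h4, k4, show v = w by omega]
    obtain ⟨k1, k2⟩ := key x hx y hy
    rw [k1, k2]
    constructor
    · rintro (h | h)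
      · exact h.le
      · exact A.q_le hL hx hy h
    · intro h
      rcases eq_or_lt_of_le h with h' | h'
      · exact Or.inl h'
      · exact Or.inr (lev_strictAnti h')
  have hinj : Function.Injective f := by
    intro x y h
    exact le_antisymm ((hle x y).mp h.le) ((hle y x).mp h.ge)
  have hsurj : Function.Surjective f := by
    intro y
    have hy := y.lt
    have hmem : ∀ x, x ∈ lowPart (a + 7) t → e (a + 7) 7 ≤ x → x ∈ L :=
      fun x h1 h2 => (hL x).mpr ⟨h1, h2⟩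
    have hz := A.p_mem (u := 7) le_rfl
    rcases Nat.lt_trichotomy y.val a with h | h | h
    · have h2 := A.trunk h
      have h3 : lev (e y.val 0) = y.val := A.C.lev_e _ 0 (by omega) (by omega) (by omega)
      have h4 : e y.val 0 ∈ lowPart (a + 7) t :=
        mem_lowPart.mpr ⟨A.C.le_t _ 0 (by omega) (by omega) (by omega), by omega⟩
      refine ⟨⟨e y.val 0, hmem _ h4 (A.le_trunk hz h4 (by omega)
        (by rw [A.lev_p le_rfl]; omega))⟩, ?_⟩
      apply Qd.ext
      rw [hf]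
      show g (e y.val 0) = y.val
      rw [g1 _ (by omega), h3]
    · refine ⟨⟨e a 0, hmem _ (A.up (A.p_le0 le_rfl) hz) (A.p_le0 le_rfl)⟩, ?_⟩
      apply Qd.ext
      rw [hf]
      show g (e a 0) = y.val
      rw [g2, h]
    · rcases Nat.eq_or_lt_of_le (show a + 1 ≤ y.val from h) with h' | h'
      · refine ⟨⟨e a 1, hmem _ (A.up (A.p_le1 (by omega) le_rfl) hz)
          (A.p_le1 (by omega) le_rfl)⟩, ?_⟩
        apply Qd.ext
        rw [hf]
        show g (e a 1) = y.val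
        rw [g3, h']
      · obtain ⟨v, hv⟩ : ∃ v, y.val = a + v + 1 := ⟨y.val - a - 1, by omega⟩
        have hv7 : v ≤ 7 := by omega
        refine ⟨⟨e (a + v) v, hmem _ (A.p_mem hv7) (A.p_le hv7 le_rfl)⟩, ?_⟩
        apply Qd.ext
        rw [hf]
        show g (e (a + v) v) = y.val
        rw [g4 v (by omega) hv7, hv]
  exact ⟨{ toEquiv := Equiv.ofBijective f ⟨hinj, hsurj⟩, map_rel_iff' := fun {x y} => hle x y }⟩

/-- **T7_lead7** -/
theorem S7.T7_lead7 (ha : 7 < a) :
    (1 + X : ℤ[X]) ^ 2 ∣ Z {x // x ∈ L} a 8 + X ^ (a + 2) * (1 + X) := by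
  obtain ⟨φ⟩ := A.q_iso hL
  exact quadric_lead φ ha

/-- all energies up to seven -/
theorem S7.T7_q (ha : 7 ≤ a) {n : ℕ} (hn : n ≤ 7) : (1 + X : ℤ[X]) ^ 2 ∣ Z {x // x ∈ L} a n := by
  obtain ⟨φ⟩ := A.q_iso hL
  exact quadric_dvd φ ha hn

end Quad

end Pool.Agent.GaussPoset
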