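import Pool.Agent.W_448s8f_h61.TF
import Pool.Agent.W_448s8f_h76.FiC

/-!
The data of the star ends: quadric ends and the ends of the seven-cell word
(MP_448cb3_co, S8, finite part).
-/

namespace Pool.Agent.GaussPoset

set_option linter.unusedSectionVars false

open Polynomial Finset Wd Cl

universe u

variable {P : Type u} [Fintype P] [PartialOrder P] [DecidableEq P] {r m : ℕ}

/-- quadric ends -/
theorem QInf.TD {t : Tops P} (h : QInf m (2 * m - 7) t) (hm : 8 ≤ m) {v : P} (hv : v ≤ (t : P))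
    (hvl : lev v = 2 * m)
    (hup : ∀ x y : P, x ≤ y → x ∈ lowPart (2 * m) (t : P) → y ∈ lowPart (2 * m) (t : P)) :
    Fi.TD m t v 8 := by
  obtain ⟨φ⟩ := h.iso
  have hb : 2 * m - (2 * m - 7) = 7 := by omega
  rw [hb] at φ
  have hvL : v ∈ lowPart (2 * m) (t : P) := mem_lowPart.mpr ⟨hv, hvl.le⟩
  have hall : ∀ x ∈ lowPart (2 * m) (t : P), v ≤ x := fun x hx =>
    h.bot v hv hvl x (mem_lowPart.mp hx).1 (mem_lowPart.mp hx).2
  refine ⟨hv, hvl, by omega, le_rfl, ?_, ?_, ?_, ?_, ?_⟩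
  · intro l hl
    rw [h.cn l (by omega), if_neg (by omega)]
  · intro L hL hLup hvL' n hn
    have hLe : L = lowPart (2 * m) (t : P) :=
      Finset.Subset.antisymm hL fun x hx => hLup v hvL' x (hall x hx)
    have ψ : {x // x ∈ L} ≃o {x : P // x ∈ lowPart (2 * m) (t : P)} := by rw [hLe]
    exact quadric_dvd (ψ.trans φ) (by omega) (by omega)
  · intro L hL
    have hLe : L = lowPart (2 * m) (t : P) := by
      ext x
      rw [hL]
      exact ⟨fun hx => hup _ _ hx hvL, hall x⟩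
    have ψ : {x // x ∈ L} ≃o {x : P // x ∈ lowPart (2 * m) (t : P)} := by rw [hLe]
    exact quadric_lead (ψ.trans φ) (by omega)
  · intro x hx hxl hne
    exfalso
    have h1 := h.bot v hv hvl x hx hxl.le
    have h2 := h.bot x hx hxl v hv hvl.le
    exact hne (le_antisymm h2 h1)
  · intro x hx hxl hvx
    exact absurd (h.bot v hv hvl x hx hxl) hvx

section Seven

variable {a : ℕ} {t : P} {lo hi : ℕ → ℕ} {e : ℕ → ℕ → P}

/-- the left ends of the rows of the word -/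
def rl7 (u : ℕ) : ℕ := (wa7.take u).countP (fun l => l.1)

/-- the right ends of the rows of the word -/
def rh7 (u : ℕ) : ℕ := 1 + (wa7.take u).countP (fun l => l.2)

/-- steps in the word -/
def stp7 (u s s' : ℕ) : Prop :=
  u + 1 ≤ 7 ∧ rl7 (u + 1) ≤ s ∧ s ≤ rh7 (u + 1) ∧ rl7 u ≤ s' ∧ s' ≤ rh7 u ∧ (s' = s ∨ s' + 1 = s)

instance (u s s' : ℕ) : Decidable (stp7 u s s') := by
  unfold stp7
  infer_instance

variable (A : S7 r a t lo hi e)
include A

lemma S7.stp {u s s' : ℕ} (h : stp7 u s s') : e (a + (u + 1)) s ⋖ e (a + u) s' := by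
  obtain ⟨h1, h2, h3, h4, h5, h6⟩ := h
  have l1 := A.lo7 (u := u + 1) h1
  have l2 := A.hi7 (u := u + 1) h1
  have l3 := A.lo7 (u := u) (by omega)
  have l4 := A.hi7 (u := u) (by omega)
  unfold rl7 at h2 h4
  unfold rh7 at h3 h5
  exact (A.C.cov (a + u) s s' (by omega) (by rw [show a + u + 1 = a + (u + 1) by omega]; omega)
    (by rw [show a + u + 1 = a + (u + 1) by omega]; omega) (by omega) (by omega)).mpr h6

lemma S7.cell {u s : ℕ} (hu : u ≤ 7) (h1 : rl7 u ≤ s) (h2 : s ≤ rh7 u) :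
    lo (a + u) ≤ s ∧ s ≤ hi (a + u) ∧ lev (e (a + u) s) = a + u ∧
      e (a + u) s ∈ lowPart (a + 7) t := by
  have l1 := A.lo7 (u := u) hu
  have l2 := A.hi7 (u := u) hu
  unfold rl7 at h1
  unfold rh7 at h2
  have g1 : lo (a + u) ≤ s := by omega
  have g2 : s ≤ hi (a + u) := by omega
  have g3 := A.C.lev_e (a + u) s (by omega) g1 g2
  exact ⟨g1, g2, g3, mem_lowPart.mpr ⟨A.C.le_t _ _ (by omega) g1 g2, by omega⟩⟩

/-- the cells of a list above a bottom cell -/
lemma S7.chain {s : ℕ} : ∀ (l : List ℕ) (s' : ℕ) (u : ℕ), u ≤ 7 →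
    e (a + 7) s ≤ e (a + u) s' → (∀ k, k < l.length →
      stp7 (u - (k + 1)) ((s' :: l).getD k 0) (l.getD k 0)) → l.length ≤ u →
    ∀ k, k < l.length → e (a + 7) s ≤ e (a + (u - (k + 1))) (l.getD k 0) := by
  intro l
  induction l with
  | nil => intro s' u _ _ _ _ k hk; exact absurd hk (by simp)
  | cons c l ih =>
    intro s' u hu h1 h2 h3 k hk
    rw [List.length_cons] at h3 hk
    have h4 := A.stp (h2 0 (by simp))
    simp only [List.getD_cons_zero] at h4
    rw [show u - (0 + 1) + 1 = u by omega, Nat.zero_add] at h4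
    have h5 : e (a + 7) s ≤ e (a + (u - 1)) c := h1.trans h4.le
    rcases Nat.eq_zero_or_pos k with rfl | hk0
    · simpa using h5
    · obtain ⟨k, rfl⟩ : ∃ i, k = i + 1 := ⟨k - 1, by omega⟩
      have h6 := ih c (u - 1) (by omega) h5 (fun i hi => by
        have := h2 (i + 1) (by rw [List.length_cons]; omega)
        rw [show u - (i + 1 + 1) = u - 1 - (i + 1) by omega] at this
        simpa using this) (by omega) k (by omega)
      rw [show u - (k + 1 + 1) = u - 1 - (k + 1) by omega]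
      simpa using h6

/-- counting cells above a bottom cell and outside an up-set -/
lemma S7.card_cells {s : ℕ} {S : Finset P} (T : Finset (ℕ × ℕ))
    (hT : ∀ c ∈ T, c.1 ≤ 7 ∧ rl7 c.1 ≤ c.2 ∧ c.2 ≤ rh7 c.1)
    (hS : ∀ c ∈ T, e (a + c.1) c.2 ∈ S) : T.card ≤ S.card := by
  classical
  refine Finset.card_le_card_of_injOn (fun c => e (a + c.1) c.2) (fun c hc => hS c hc) ?_
  rintro ⟨u1, s1⟩ h1 ⟨u2, s2⟩ h2 h
  simp only at h
  have g1 := hT _ h1
  have g2 := hT _ h2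
  obtain ⟨a1, a2, a3, -⟩ := A.cell g1.1 g1.2.1 g1.2.2
  obtain ⟨b1, b2, b3, -⟩ := A.cell g2.1 g2.2.1 g2.2.2
  simp only at a1 a2 a3 b1 b2 b3
  have h3 : u1 = u2 := by
    have := congrArg lev h
    omega
  subst h3
  exact Prod.ext rfl (A.C.inj (a + u1) s1 s2 (by have := g1.1; simp only at this; omega)
    a1 a2 b1 b2 h)

lemma S7.not_above7 {u s : ℕ} (h1 : 1 ≤ u) (hu : u ≤ 7) (h2 : rl7 u ≤ s) (h3 : s ≤ rh7 u)
    (hs : s ≠ u) : ¬ e (a + 7) 7 ≤ e (a + u) s := by
  intro h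
  obtain ⟨c1, c2, c3, -⟩ := A.cell hu h2 h3
  obtain ⟨w, w1, w2, w3⟩ := A.above le_rfl h (by omega)
  have h4 : u = w := by
    have := congrArg lev w3
    rw [c3, A.lev_p w2] at this
    omega
  subst h4
  have h5 := A.row hu
  exact hs (A.C.inj (a + u) s u (by omega) c1 c2 h5.1 h5.2 w3)

lemma S7.not_above3 {u s : ℕ} (hu : u ≤ 7) (h2 : rl7 u ≤ s) (h3 : s ≤ rh7 u) (hs : 3 < s) :
    ¬ e (a + 7) 3 ≤ e (a + u) s := by
  intro h
  obtain ⟨c1, c2, c3, -⟩ := A.cell hu h2 h3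
  have hr7 := A.row3 (u := 7) (by omega) le_rfl
  have := A.coord (l := a + u) (by omega) c1 c2 (a + 7) 3 le_rfl hr7.1 hr7.2 h
  omega

/-- the bottom cells -/
lemma S7.bottom {x : P} (hx : x ≤ t) (hxl : lev x = a + 7) :
    ∃ s, 3 ≤ s ∧ s ≤ 7 ∧ x = e (a + 7) s := by
  obtain ⟨s, h1, h2, h3⟩ := A.C.surj x hx (by omega)
  rw [hxl] at h1 h2 h3
  have l1 := A.lo7 (u := 7) le_rfl
  have l2 := A.hi7 (u := 7) le_rfl
  have l3 : (wa7.take 7).countP (fun l => l.1) = 3 := by decide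
  have l4 : (wa7.take 7).countP (fun l => l.2) = 6 := by decide
  exact ⟨s, by omega, by omega, h3.symm⟩

end Seven

end Pool.Agent.GaussPoset
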