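import Pool.Agent.W_448s8f_h61.TG

/-!
The data of the two star ends of the seven-cell word (MP_448cb3_co, S8, finite part).
-/

namespace Pool.Agent.GaussPoset

set_option linter.unusedSectionVars false

open Polynomial Finset Wd Cl

universe u

variable {P : Type u} [Fintype P] [PartialOrder P] [DecidableEq P] {r m a : ℕ}
variable {t : P} {lo hi : ℕ → ℕ} {e : ℕ → ℕ → P} (A : S7 r a t lo hi e)
include A

lemma S7.mem7 {x : P} {u s' : ℕ} {S : Finset P} (hS : ∀ w, w ∈ S ↔ x ≤ w ∧ ¬ e (a + 7) 7 ≤ w)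
    (h : 1 ≤ u ∧ u ≤ 7 ∧ rl7 u ≤ s' ∧ s' ≤ rh7 u ∧ s' ≠ u) (hle : x ≤ e (a + u) s') :
    e (a + u) s' ∈ S :=
  (hS _).mpr ⟨hle, A.not_above7 h.1 h.2.1 h.2.2.1 h.2.2.2.1 h.2.2.2.2⟩

lemma S7.mem3 {x : P} {u s' : ℕ} {S : Finset P} (hS : ∀ w, w ∈ S ↔ x ≤ w ∧ ¬ e (a + 7) 3 ≤ w)
    (h : u ≤ 7 ∧ rl7 u ≤ s' ∧ s' ≤ rh7 u ∧ 3 < s') (hle : x ≤ e (a + u) s') :
    e (a + u) s' ∈ S :=
  (hS _).mpr ⟨hle, A.not_above3 h.1 h.2.1 h.2.2.1 h.2.2.2⟩

lemma S7.two_up {s : ℕ} (h1 : 4 ≤ s) (h2 : s ≤ 6) : (Win.uc (e (a + 7) s)).card ≠ 1 := by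
  classical
  intro h
  have g1 : stp7 6 s s := by
    interval_cases s <;> decide
  have g2 : stp7 6 s (s - 1) := by
    interval_cases s <;> decide
  have c1 := A.stp g1
  have c2 := A.stp g2
  rw [Finset.card_eq_one] at h
  obtain ⟨y, hy⟩ := h
  have m1 : e (a + 6) s ∈ Win.uc (e (a + 7) s) := Win.mem_uc.mpr c1
  have m2 : e (a + 6) (s - 1) ∈ Win.uc (e (a + 7) s) := Win.mem_uc.mpr c2
  rw [hy, mem_singleton] at m1 m2
  obtain ⟨b1, b2, -, -⟩ := A.cell (u := 6) (by omega) g1.2.2.2.1 g1.2.2.2.2.1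
  obtain ⟨b3, b4, -, -⟩ := A.cell (u := 6) (by omega) g2.2.2.2.1 g2.2.2.2.2.1
  have := A.C.inj (a + 6) s (s - 1) (by omega) b1 b2 b3 b4 (m1.trans m2.symm)
  omega

lemma S7.tail {x : P} (h : x ≤ e (a + 3) 2) : x ≤ e (a + 2) 1 ∧ x ≤ e (a + 1) 0 := by
  have h1 : x ≤ e (a + 2) 1 := h.trans (A.stp (u := 2) (s := 2) (s' := 1) (by decide)).le
  exact ⟨h1, h1.trans (A.stp (u := 1) (s := 1) (s' := 0) (by decide)).le⟩

lemma S7.ot7 {x : P} (hx : x ≤ t) (hxl : lev x = a + 7) (hne : x ≠ e (a + 7) 7) {S : Finset P}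
    (hS : ∀ w, w ∈ S ↔ x ≤ w ∧ ¬ e (a + 7) 7 ≤ w) :
    8 ≤ 1 + S.card ∧ ((Win.uc x).card = 1 → 8 < 1 + S.card) := by
  classical
  obtain ⟨s, h3, h7, rfl⟩ := A.bottom hx hxl
  have hs7 : s ≠ 7 := fun h => hne (by rw [h])
  obtain rfl | hs4 : s = 3 ∨ 4 ≤ s := by omega
  · -- the other single-up end
    have g6 : e (a + 7) 3 ≤ e (a + 6) 3 := (A.stp (u := 6) (by decide)).le
    have g5 : e (a + 7) 3 ≤ e (a + 5) 3 := g6.trans (A.stp (u := 5) (by decide)).le
    have g4 : e (a + 7) 3 ≤ e (a + 4) 3 := g5.trans (A.stp (u := 4) (by decide)).le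
    have g4' : e (a + 7) 3 ≤ e (a + 4) 2 := g5.trans (A.stp (u := 4) (by decide)).le
    have g3 : e (a + 7) 3 ≤ e (a + 3) 2 := g4'.trans (A.stp (u := 3) (by decide)).le
    obtain ⟨g2, g1⟩ := A.tail g3
    have key : 8 ≤ S.card := by
      refine le_trans (le_of_eq ?_) (A.card_cells (s := 3)
        {(7, 3), (6, 3), (5, 3), (4, 2), (4, 3), (3, 2), (2, 1), (1, 0)} (by decide) ?_)
      · decide
      · intro c hc
        simp only [mem_insert, mem_singleton] at hc
        rcases hc with rfl | rfl | rfl | rfl | rfl | rfl | rfl | rfl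
        · exact A.mem7 hS (by decide) le_rfl
        · exact A.mem7 hS (by decide) g6
        · exact A.mem7 hS (by decide) g5
        · exact A.mem7 hS (by decide) g4'
        · exact A.mem7 hS (by decide) g4
        · exact A.mem7 hS (by decide) g3
        · exact A.mem7 hS (by decide) g2
        · exact A.mem7 hS (by decide) g1
    omega
  · have hno := A.two_up hs4 (by omega)
    refine ⟨?_, fun h => absurd h hno⟩
    have key : 7 ≤ S.card := by
      obtain rfl | rfl | rfl : s = 4 ∨ s = 5 ∨ s = 6 := by omega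
      · have g6 : e (a + 7) 4 ≤ e (a + 6) 3 := (A.stp (u := 6) (by decide)).le
        have g5 : e (a + 7) 4 ≤ e (a + 5) 3 := g6.trans (A.stp (u := 5) (by decide)).le
        have g4 : e (a + 7) 4 ≤ e (a + 4) 2 := g5.trans (A.stp (u := 4) (by decide)).le
        have g3 : e (a + 7) 4 ≤ e (a + 3) 2 := g4.trans (A.stp (u := 3) (by decide)).le
        obtain ⟨g2, g1⟩ := A.tail g3
        refine le_trans (le_of_eq ?_) (A.card_cells (s := 3)
          {(7, 4), (6, 3), (5, 3), (4, 2), (3, 2), (2, 1), (1, 0)} (by decide) ?_)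
        · decide
        · intro c hc
          simp only [mem_insert, mem_singleton] at hc
          rcases hc with rfl | rfl | rfl | rfl | rfl | rfl | rfl
          · exact A.mem7 hS (by decide) le_rfl
          · exact A.mem7 hS (by decide) g6
          · exact A.mem7 hS (by decide) g5
          · exact A.mem7 hS (by decide) g4
          · exact A.mem7 hS (by decide) g3
          · exact A.mem7 hS (by decide) g2
          · exact A.mem7 hS (by decide) g1
      · have g6 : e (a + 7) 5 ≤ e (a + 6) 4 := (A.stp (u := 6) (by decide)).le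
        have g5 : e (a + 7) 5 ≤ e (a + 5) 3 := g6.trans (A.stp (u := 5) (by decide)).le
        have g4 : e (a + 7) 5 ≤ e (a + 4) 2 := g5.trans (A.stp (u := 4) (by decide)).le
        have g3 : e (a + 7) 5 ≤ e (a + 3) 2 := g4.trans (A.stp (u := 3) (by decide)).le
        obtain ⟨g2, g1⟩ := A.tail g3
        refine le_trans (le_of_eq ?_) (A.card_cells (s := 3)
          {(7, 5), (6, 4), (5, 3), (4, 2), (3, 2), (2, 1), (1, 0)} (by decide) ?_)
        · decide
        · intro c hc
          simp only [mem_insert, mem_singleton] at hc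
          rcases hc with rfl | rfl | rfl | rfl | rfl | rfl | rfl
          · exact A.mem7 hS (by decide) le_rfl
          · exact A.mem7 hS (by decide) g6
          · exact A.mem7 hS (by decide) g5
          · exact A.mem7 hS (by decide) g4
          · exact A.mem7 hS (by decide) g3
          · exact A.mem7 hS (by decide) g2
          · exact A.mem7 hS (by decide) g1
      · have g6 : e (a + 7) 6 ≤ e (a + 6) 5 := (A.stp (u := 6) (by decide)).le
        have g5 : e (a + 7) 6 ≤ e (a + 5) 4 := g6.trans (A.stp (u := 5) (by decide)).le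
        have g4 : e (a + 7) 6 ≤ e (a + 4) 3 := g5.trans (A.stp (u := 4) (by decide)).le
        have g3 : e (a + 7) 6 ≤ e (a + 3) 2 := g4.trans (A.stp (u := 3) (by decide)).le
        obtain ⟨g2, g1⟩ := A.tail g3
        refine le_trans (le_of_eq ?_) (A.card_cells (s := 3)
          {(7, 6), (6, 5), (5, 4), (4, 3), (3, 2), (2, 1), (1, 0)} (by decide) ?_)
        · decide
        · intro c hc
          simp only [mem_insert, mem_singleton] at hc
          rcases hc with rfl | rfl | rfl | rfl | rfl | rfl | rfl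
          · exact A.mem7 hS (by decide) le_rfl
          · exact A.mem7 hS (by decide) g6
          · exact A.mem7 hS (by decide) g5
          · exact A.mem7 hS (by decide) g4
          · exact A.mem7 hS (by decide) g3
          · exact A.mem7 hS (by decide) g2
          · exact A.mem7 hS (by decide) g1
    omega

lemma S7.ot3 {x : P} (hx : x ≤ t) (hxl : lev x = a + 7) (hne : x ≠ e (a + 7) 3) {S : Finset P}
    (hS : ∀ w, w ∈ S ↔ x ≤ w ∧ ¬ e (a + 7) 3 ≤ w) : 4 < 1 + S.card := by
  classical
  obtain ⟨s, h3, h7, rfl⟩ := A.bottom hx hxl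
  have hs3 : s ≠ 3 := fun h => hne (by rw [h])
  have key : 4 ≤ S.card := by
    obtain rfl | rfl | rfl | rfl : s = 4 ∨ s = 5 ∨ s = 6 ∨ s = 7 := by omega
    · have g6 : e (a + 7) 4 ≤ e (a + 6) 4 := (A.stp (u := 6) (by decide)).le
      have g5 : e (a + 7) 4 ≤ e (a + 5) 4 := g6.trans (A.stp (u := 5) (by decide)).le
      have g4 : e (a + 7) 4 ≤ e (a + 4) 4 := g5.trans (A.stp (u := 4) (by decide)).le
      refine le_trans (le_of_eq ?_) (A.card_cells (s := 3) {(7, 4), (6, 4), (5, 4), (4, 4)}
        (by decide) ?_)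
      · decide
      · intro c hc
        simp only [mem_insert, mem_singleton] at hc
        rcases hc with rfl | rfl | rfl | rfl
        · exact A.mem3 hS (by decide) le_rfl
        · exact A.mem3 hS (by decide) g6
        · exact A.mem3 hS (by decide) g5
        · exact A.mem3 hS (by decide) g4
    · have g6 : e (a + 7) 5 ≤ e (a + 6) 5 := (A.stp (u := 6) (by decide)).le
      have g5 : e (a + 7) 5 ≤ e (a + 5) 5 := g6.trans (A.stp (u := 5) (by decide)).le
      have g4 : e (a + 7) 5 ≤ e (a + 4) 4 := g5.trans (A.stp (u := 4) (by decide)).le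
      refine le_trans (le_of_eq ?_) (A.card_cells (s := 3) {(7, 5), (6, 5), (5, 5), (4, 4)}
        (by decide) ?_)
      · decide
      · intro c hc
        simp only [mem_insert, mem_singleton] at hc
        rcases hc with rfl | rfl | rfl | rfl
        · exact A.mem3 hS (by decide) le_rfl
        · exact A.mem3 hS (by decide) g6
        · exact A.mem3 hS (by decide) g5
        · exact A.mem3 hS (by decide) g4
    · have g6 : e (a + 7) 6 ≤ e (a + 6) 6 := (A.stp (u := 6) (by decide)).le
      have g5 : e (a + 7) 6 ≤ e (a + 5) 5 := g6.trans (A.stp (u := 5) (by decide)).le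
      have g4 : e (a + 7) 6 ≤ e (a + 4) 4 := g5.trans (A.stp (u := 4) (by decide)).le
      refine le_trans (le_of_eq ?_) (A.card_cells (s := 3) {(7, 6), (6, 6), (5, 5), (4, 4)}
        (by decide) ?_)
      · decide
      · intro c hc
        simp only [mem_insert, mem_singleton] at hc
        rcases hc with rfl | rfl | rfl | rfl
        · exact A.mem3 hS (by decide) le_rfl
        · exact A.mem3 hS (by decide) g6
        · exact A.mem3 hS (by decide) g5
        · exact A.mem3 hS (by decide) g4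
    · have g6 : e (a + 7) 7 ≤ e (a + 6) 6 := (A.stp (u := 6) (by decide)).le
      have g5 : e (a + 7) 7 ≤ e (a + 5) 5 := g6.trans (A.stp (u := 5) (by decide)).le
      have g4 : e (a + 7) 7 ≤ e (a + 4) 4 := g5.trans (A.stp (u := 4) (by decide)).le
      refine le_trans (le_of_eq ?_) (A.card_cells (s := 3) {(7, 7), (6, 6), (5, 5), (4, 4)}
        (by decide) ?_)
      · decide
      · intro c hc
        simp only [mem_insert, mem_singleton] at hc
        rcases hc with rfl | rfl | rfl | rfl
        · exact A.mem3 hS (by decide) le_rfl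
        · exact A.mem3 hS (by decide) g6
        · exact A.mem3 hS (by decide) g5
        · exact A.mem3 hS (by decide) g4
  omega

/-- everything on the levels `≤ a` is above every bottom cell of the path or the side -/
lemma S7.out7 {x : P} (hx : x ≤ t) (hxa : lev x ≤ a) : e (a + 7) 7 ≤ x ∧ e (a + 7) 3 ≤ x := by
  have hxL : x ∈ lowPart (a + 7) t := mem_lowPart.mpr ⟨hx, by omega⟩
  have h3 : e (a + 7) 3 ≤ e (a + 3) 3 := A.side le_rfl (by omega)
  rcases Nat.lt_or_ge (lev x) a with h | h
  · exact ⟨A.le_trunk (A.p_mem le_rfl) hxL h (by rw [A.lev_p le_rfl]; omega),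
      h3.trans (A.le_trunk (A.p_mem (u := 3) (by omega)) hxL h
        (by rw [A.lev_p (by omega)]; omega))⟩
  · rcases A.row_eq hxL (by omega) with rfl | rfl
    · exact ⟨A.p_le0 le_rfl, h3.trans (A.p_le0 (by omega))⟩
    · exact ⟨A.p_le1 (by omega) le_rfl, h3.trans (A.p_le1 (by omega) (by omega))⟩

lemma S7.cn_a {l : ℕ} (hl : l < a) : cn l t = 1 := by
  classical
  unfold cn
  rw [A.C.card_row (by omega)]
  have := A.trunk hl
  omega

end Pool.Agent.GaussPoset
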