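import Pool.Agent.W_448s8f_h61.TH

/-!
The data `TD` of the two star ends of the seven-cell word (MP_448cb3_co, S8, finite part).
-/

namespace Pool.Agent.GaussPoset

set_option linter.unusedSectionVars false

open Polynomial Finset Wd Cl

universe u

variable {P : Type u} [Fintype P] [PartialOrder P] [DecidableEq P] {r m a : ℕ}
variable {t : Tops P} {lo hi : ℕ → ℕ} {e : ℕ → ℕ → P}

/-- the data of the end of the path -/
theorem S7.TD8 (A : S7 r a (t : P) lo hi e) (hm : 2 * m = a + 7) (ha : 7 < a) :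
    Fi.TD m t (e (a + 7) 7) 8 := by
  have hm7 : 2 * m - 7 = a := by omega
  have hx := A.p_mem (u := 7) le_rfl
  refine ⟨(mem_lowPart.mp hx).1, ?_, by omega, le_rfl, ?_, ?_, ?_, ?_, ?_⟩
  · rw [A.lev_p le_rfl, hm]
  · intro l hl
    exact A.cn_a (by omega)
  · intro L hL hup hv n hn
    rw [hm7]
    rw [hm] at hL
    exact A.T7_dvd ha.le hL (fun x y hxy hxL => hup x hxL y hxy) hv (by omega)
  · intro L hL
    rw [hm7]
    refine A.T7_lead7 (fun x => ?_) ha
    rw [hL]
    exact ⟨fun h => ⟨A.up h hx, h⟩, fun h => h.2⟩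
  · intro x hxt hxl hne S hS
    exact A.ot7 hxt (by omega) hne hS
  · intro x hxt hxl hnv
    by_contra hcon
    exact hnv (A.out7 hxt (by omega)).1

/-- the data of the end of the side -/
theorem S7.TD4 (A : S7 r a (t : P) lo hi e) (hm : 2 * m = a + 7) (ha : 7 < a) :
    Fi.TD m t (e (a + 7) 3) 4 := by
  have hm7 : 2 * m - 7 = a := by omega
  have hr7 := A.row3 (u := 7) (by omega) le_rfl
  have hl3 : lev (e (a + 7) 3) = a + 7 := A.C.lev_e _ _ le_rfl hr7.1 hr7.2
  have hx : e (a + 7) 3 ∈ lowPart (a + 7) (t : P) :=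
    mem_lowPart.mpr ⟨A.C.le_t _ _ le_rfl hr7.1 hr7.2, hl3.le⟩
  refine ⟨(mem_lowPart.mp hx).1, ?_, by omega, by omega, ?_, ?_, ?_, ?_, ?_⟩
  · rw [hl3, hm]
  · intro l hl
    exact A.cn_a (by omega)
  · intro L hL hup hv n hn
    rw [hm7]
    rw [hm] at hL
    exact A.T7_dvd' ha.le hL (fun x y hxy hxL => hup x hxL y hxy) hv hn
  · intro L hL
    rw [hm7]
    refine A.T7_lead3 ha.le (fun x => ?_)
    rw [hL]
    exact ⟨fun h => ⟨A.up h hx, h⟩, fun h => h.2⟩
  · intro x hxt hxl hne S hS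
    have := A.ot3 hxt (by omega) hne hS
    exact ⟨by omega, fun _ => this⟩
  · intro x hxt hxl hnv
    by_contra hcon
    exact hnv (A.out7 hxt (by omega)).2

end Pool.Agent.GaussPoset
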