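import Pool.Agent.W_448s8f_h61.TI
import Pool.Agent.W_448cl_h67.ClL
import Pool.Agent.W_448cl_h67.ClP

/-!
The profiles of the ends of the late words (MP_448cb3_co, S8, finite part).
-/

namespace Pool.Agent.GaussPoset

set_option linter.unusedSectionVars false

open Polynomial Finset Wd Cl

/-- the profiles of the ends of the late words -/
def PLl : List (List ℕ) := [[], [0, 0, 1, 1, 1], [0, 0, 1, 1, 1, 1, 1], Fi.p5] ++
  (List.range' 2 6).map (fun d => List.replicate d 0 ++ [1])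

/-- the check of an end -/
def ChkP (w : List Ltr) (s : ℕ) : Prop :=
  Wd.Lw w (w.length + 3) ≤ s → s ≤ Wd.Hw w (w.length + 3) →
    (upI (Wd.Lw w) (Wd.Hw w) (w.length + 3) s 1).1 = (upI (Wd.Lw w) (Wd.Hw w) (w.length + 3) s 1).2 →
    ∃ p ∈ PLl, p.length ≤ w.length + 1 ∧ (∀ d < w.length + 1,
      (upI (Wd.Lw w) (Wd.Hw w) (w.length + 3) s d).2 =
        (upI (Wd.Lw w) (Wd.Hw w) (w.length + 3) s d).1 + Fi.gD p d) ∧
      (Fi.gD p 7 = 1 → (w = wa7 ∧ ((s = 7 ∧ p = Fi.q7) ∨ (s = 3 ∧ p = Fi.p5))))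

instance (w : List Ltr) (s : ℕ) : Decidable (ChkP w s) := by unfold ChkP; infer_instance

lemma late_prof : ∀ w ∈ lateW 8, ∀ s, s < 20 → ChkP w s := by decide +kernel

lemma gD_rep (n d : ℕ) : Fi.gD (List.replicate n 0 ++ [1]) d = if d = n then 1 else 0 := by
  unfold Fi.gD
  rw [List.getD_eq_getElem?_getD]
  rcases Nat.lt_trichotomy d n with h | h | h
  · rw [List.getElem?_append_left (by rw [List.length_replicate]; exact h),
      List.getElem?_replicate, if_pos h, if_neg (by omega)]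
    rfl
  · rw [h, List.getElem?_append_right (by rw [List.length_replicate]), List.length_replicate,
      Nat.sub_self, if_pos rfl]
    rfl
  · have h2 : (List.replicate n 0 ++ [1]).length ≤ d := by
      rw [List.length_append, List.length_replicate, List.length_singleton]
      omega
    rw [List.getElem?_eq_none h2, if_neg (by omega)]
    rfl

lemma gD_large {p : List ℕ} {d : ℕ} (h : p.length ≤ d) : Fi.gD p d = 0 := by
  unfold Fi.gD
  rw [List.getD_eq_getElem?_getD, List.getElem?_eq_none h]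
  rfl

universe u

variable {P : Type u} [Fintype P] [PartialOrder P] [DecidableEq P] {r m a : ℕ}
variable {t : Tops P} {lo hi : ℕ → ℕ} {e : ℕ → ℕ → P}

/-- the profiles of the ends of the late words -/
theorem prof_late (C : Cp.Comp (2 * m) (t : P) lo hi e) (H : Gr P r)
    (hg : ∀ l, l < 2 * m → Win.Good P l) (D : LateD (2 * m) a lo hi)
    (hw : word lo hi a (2 * m - a) ∈ lateW 8) {s : ℕ} (s1 : lo (2 * m) ≤ s)
    (s2 : s ≤ hi (2 * m)) (hx : (Win.uc (e (2 * m) s)).card = 1) :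
    ∃ p ∈ PLl, Fi.Prof m (e (2 * m) s) (Fi.gD p) ∧ (Fi.gD p 7 = 1 →
      (word lo hi a (2 * m - a) = wa7 ∧ ((s = 7 ∧ p = Fi.q7) ∨ (s = 3 ∧ p = Fi.p5)))) := by
  have h0 := D.h0
  have h1 := D.h1
  have ht := t.2
  have hlv := C.lev_e (2 * m) s le_rfl s1 s2
  have hnab : ∀ d, d ≤ 2 * m → nab (2 * m - d) (e (2 * m) s) =
      (upI lo hi (2 * m) s d).2 + 1 - (upI lo hi (2 * m) s d).1 :=
    fun d hd => nab_upI C H hg ht s1 s2 hd
  have hint : ∀ d, d ≤ 2 * m → lo (2 * m - d) ≤ (upI lo hi (2 * m) s d).1 ∧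
      (upI lo hi (2 * m) s d).1 ≤ (upI lo hi (2 * m) s d).2 ∧
      (upI lo hi (2 * m) s d).2 ≤ hi (2 * m - d) :=
    fun d hd => (upI_spec C H hg ht s1 s2 d hd).1
  have hfirst : (upI lo hi (2 * m) s 1).1 = (upI lo hi (2 * m) s 1).2 := by
    rw [uc_card_nab H (by omega), hlv, hnab 1 (by omega)] at hx
    have := hint 1 (by omega)
    omega
  have hL := fun n hn => (Wd.Lw_of_trunk C h0 h1 D.h2 D.h3 n hn).1
  have hH := fun n hn => (Wd.Lw_of_trunk C h0 h1 D.h2 D.h3 n hn).2
  have hup := upI_congr (s := s) hL hH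
  have hj' : a - 3 + (2 * m - a + 3) = 2 * m := by omega
  rw [hj'] at hup
  have k1 := late_small _ hw
  have k2 := late_prof _ hw s
  rw [word_length] at k1
  unfold ChkP at k2
  rw [word_length, hL _ le_rfl, hH _ le_rfl, hj', hup 1 (by omega)] at k2
  rw [hH _ le_rfl, hj'] at k1
  have k3 := k2 (by omega) s1 s2 hfirst
  clear k2
  obtain ⟨p, hp, hlen, hd, h7⟩ := k3
  refine ⟨p, hp, fun d hdj => ?_, h7⟩
  rw [hnab d hdj]
  have h2 := hint d hdj
  rcases Nat.lt_or_ge (2 * m - d) a with h3 | h3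
  · have h4 := D.h2 _ h3
    rw [gD_large (by omega)]
    omega
  · have h4 := hd d (by omega)
    rw [hup d (by omega)] at h4
    omega

end Pool.Agent.GaussPoset
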